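import Pool.Agent.MP_63050e_lc.Statement

/-! The multiboard Gale–Stewart games, interpreted in a model `(M, E)` of ZFC. All quantifiers
range over the model. -/

namespace Pool.Agent.MPe811a4

open MP63050e

universe u

variable {M : Type u} (E : M → M → Prop)

/-- `F` is the set of all functions from `K` to `L`: the possible moves in the `K`-board game
on `L`. -/
def IsMoves (K L F : M) : Prop := ∀ g, E g F ↔ IsFun E g K L

/-- `S` is the set of all finite sequences of elements of `F`, i.e. of all functions from some
`n ∈ w = ω` to `F`. -/
def IsSeqSet (w F S : M) : Prop := ∀ s, E s S ↔ ∃ n, E n w ∧ IsFun E s n F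

/-- `X` is the set of the even natural numbers (`w = ω`). -/
def IsEvens (w X : M) : Prop :=
  (∀ n, E n X → E n w) ∧ (∀ e, IsEmp E e → E e X) ∧
    ∀ n n', E n w → IsSucc E n' n → (E n' X ↔ ¬ E n X)

/-- `s` is the restriction `f ↾ n` of the function `f` to `n`. -/
def IsRes (s f n : M) : Prop := ∀ p, E p s ↔ E p f ∧ ∃ a b, E a n ∧ IsPair E p a b

/-- In the play `f = (f_n)_{n < ω}` player ONE, who makes the moves `f_n` with `n` even, follows
the strategy `σ`: `f_n = σ(f_0, …, f_{n-1})` for all even `n`. -/
def FollowsOne (X σ f : M) : Prop :=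
  ∀ n s g, E n X → IsRes E s f n → Has E f [n, g] → Has E σ [s, g]

/-- In the play `f = (f_n)_{n < ω}` player TWO, who makes the moves `f_n` with `n` odd, follows
the strategy `τ`: `f_n = τ(f_0, …, f_{n-1})` for all odd `n`. -/
def FollowsTwo (w X τ f : M) : Prop :=
  ∀ n s g, E n w → ¬ E n X → IsRes E s f n → Has E f [n, g] → Has E τ [s, g]

/-- `x ∈ ^ωL` is the sequence `(f_n(r))_{n < ω}` of the moves on the board `r` in the play `f`. -/
def IsBoard (w L f r x : M) : Prop :=
  IsFun E x w L ∧ ∀ n g v, Has E f [n, g] → Has E g [r, v] → Has E x [n, v]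

/-- Player ONE has a winning strategy `σ` in the `K`-board game on `L` with payoff set `A`: in each
play in which ONE follows `σ`, the sequence of the moves on some board is an element of `A`. Here
`w = ω`, `F` is the set of the functions from `K` to `L`, `S` the set of the finite sequences of
elements of `F`, and `X` the set of the even natural numbers. -/
def OneWins (w L K F S X A : M) : Prop :=
  ∃ σ, IsFun E σ S F ∧ ∀ f, IsFun E f w F → FollowsOne E X σ f →
    ∃ r x, E r K ∧ IsBoard E w L f r x ∧ E x A

/-- Player TWO has a winning strategy `τ` in the `K`-board game on `L` with payoff set `A`: in each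
play in which TWO follows `τ`, the sequence of the moves on every board is not in `A`. -/
def TwoWins (w L K F S X A : M) : Prop :=
  ∃ τ, IsFun E τ S F ∧ ∀ f, IsFun E f w F → FollowsTwo E w X τ f →
    ∀ r x, E r K → IsBoard E w L f r x → ¬ E x A

/-- The `K`-board Gale–Stewart game on `L` with payoff set `A` is determined (`w = ω`). -/
def Determined (w L K A : M) : Prop :=
  ∀ F S X, IsMoves E K L F → IsSeqSet E w F S → IsEvens E w X →
    OneWins E w L K F S X A ∨ TwoWins E w L K F S X A

end Pool.Agent.MPe811a4
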