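import Pool.Agent.MP_7e7dde_gt.Tool
import Pool.Agent.MP_63050e_lc.E2
import Pool.Agent.MP_e811a4_lc.Statement

/-! Names of functions and of finite sequences. -/

set_option linter.unusedVariables false
set_option linter.unusedSectionVars false
set_option linter.unreachableTactic false
set_option linter.unusedTactic false

namespace Pool.Agent.MPe811a4

open BVM BName SetModel MP63050e MP7e7dde

variable {B : Type} [CompleteBooleanAlgebra B]

/-! ### Adjoining an element -/

/-- The name of `x ∪ {y}`. -/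
def adj (x y : BName B) : BName B := sunion (upair x (upair y y))

theorem E_adj {h : Ult B} {x y : BName B} {z : Mdl h} :
    E h z (Mdl.mk h (adj x y)) ↔ E h z (Mdl.mk h x) ∨ z = Mdl.mk h y := by
  rw [adj, E_sunion]
  constructor
  · rintro ⟨u, hu, hz⟩
    rw [E_upair] at hu
    rcases hu with rfl | rfl
    · exact Or.inl hz
    · rw [E_upair, or_self] at hz
      exact Or.inr hz
  · rintro (hz | rfl)
    · exact ⟨_, (E_upair _ _ _ _).2 (Or.inl rfl), hz⟩
    · exact ⟨_, (E_upair _ _ _ _).2 (Or.inr rfl), (E_upair _ _ _ _).2 (Or.inl rfl)⟩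

/-! ### Nice names -/

/-- Every set has a name such that each of its elements has exactly one index. -/
theorem exists_nice (K : BName B) : ∃ (ι : Type) (e : ι → BName B) (c : ι → B),
    (∀ h : Ult B, Mdl.mk h (BName.mk ι e c) = Mdl.mk h K) ∧
    ∀ (h : Ult B) i j, h.V (c i) → h.V (c j) → Mdl.mk h (e i) = Mdl.mk h (e j) → i = j := by
  classical
  let r : K.Idx → K.Idx → Prop := WellOrderingRel
  let c : K.Idx → B := fun i =>
    K.coe i ⊓ (⨆ j : {j : K.Idx // r j i}, K.coe j.1 ⊓ beq (K.fam j.1) (K.fam i))ᶜ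
  refine ⟨K.Idx, K.fam, c, ?_, ?_⟩
  · have key : ∀ (z : BName B) i, K.coe i ⊓ beq z (K.fam i) ≤ ⨆ j, c j ⊓ beq z (K.fam j) := by
      intro z i
      induction i using (IsWellFounded.wf (r := r)).induction with
      | _ i ih =>
        set s : B := ⨆ j : {j : K.Idx // r j i}, K.coe j.1 ⊓ beq (K.fam j.1) (K.fam i) with hs
        have h1 : K.coe i ⊓ beq z (K.fam i) ≤
            (c i ⊓ beq z (K.fam i)) ⊔ (s ⊓ beq z (K.fam i)) := by
          rw [← inf_sup_right]
          refine inf_le_inf_right _ ?_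
          change K.coe i ≤ (K.coe i ⊓ sᶜ) ⊔ s
          rw [sup_inf_right, compl_sup_eq_top, inf_top_eq]
          exact le_sup_left
        refine h1.trans (sup_le (le_iSup (fun j => c j ⊓ beq z (K.fam j)) i) ?_)
        rw [hs, iSup_inf_eq]
        refine iSup_le fun j => le_trans ?_ (ih j.1 j.2)
        refine le_inf (inf_le_left.trans inf_le_left) ?_
        refine le_trans ?_ (beq_trans z (K.fam i) (K.fam j.1))
        refine le_inf inf_le_right ?_
        rw [beq_symm (K.fam i) (K.fam j.1)]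
        exact inf_le_left.trans inf_le_right
    intro h
    apply Mdl.ext
    intro z
    obtain ⟨z, rfl⟩ := z.exists_rep
    rw [E_mk, E_mk, bmem_mk, bmem_eq z K]
    constructor
    · exact h.mono (iSup_mono fun i => inf_le_inf_right _ inf_le_left)
    · exact h.mono (iSup_le fun i => key z i)
  · have key : ∀ (h : Ult B) i j, r i j → h.V (c i) → h.V (c j) →
        Mdl.mk h (K.fam i) = Mdl.mk h (K.fam j) → False := by
      intro h i j hij hi hj he
      have h1 : h.V (⨆ j' : {j' : K.Idx // r j' j}, K.coe j'.1 ⊓ beq (K.fam j'.1) (K.fam j)) :=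
        h.iSup_of (fun j' : {j' : K.Idx // r j' j} => K.coe j'.1 ⊓ beq (K.fam j'.1) (K.fam j))
          ⟨i, hij⟩ ((h.inf' _ _).2 ⟨((h.inf' _ _).1 hi).1, Mdl.mk_eq.1 he⟩)
      have h2 := ((h.inf' _ _).1 hj).2
      rw [h.compl'] at h2
      exact h2 h1
    intro h i j hi hj he
    rcases trichotomous_of r i j with hr | hr | hr
    · exact (key h i j hr hi hj he).elim
    · exact hr
    · exact (key h j i hr hj hi he.symm).elim

/-! ### Functions given by a value at each index -/

section hN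

variable {ι : Type} {e : ι → BName B} {c : ι → B}

/-- Each element of the name `mk ι e c` has exactly one index. -/
def Sep (e : ι → BName B) (c : ι → B) : Prop :=
  ∀ (h : Ult B) i j, h.V (c i) → h.V (c j) → Mdl.mk h (e i) = Mdl.mk h (e j) → i = j

/-- The name of the function with value `y i` at the element of index `i`. -/
def hN (e : ι → BName B) (c : ι → B) (y : ι → BName B) : BName B :=
  BName.mk ι (fun i => opair (e i) (y i)) c

theorem V_coe {h : Ult B} {i : ι} (hi : h.V (c i)) :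
    E h (Mdl.mk h (e i)) (Mdl.mk h (BName.mk ι e c)) :=
  h.mono (coe_le_bmem (BName.mk ι e c) i) hi

theorem has_hN (hs : Sep e c) {y : ι → BName B} {h : Ult B} {i : ι} (hi : h.V (c i))
    {z : Mdl h} : Has (E h) (Mdl.mk h (hN e c y)) [Mdl.mk h (e i), z] ↔ z = Mdl.mk h (y i) := by
  rw [has_iff (by simp)]
  constructor
  · intro H
    refine forall_mem (P := fun h p => ∀ z, p = pr h (Mdl.mk h (e i)) z → z = Mdl.mk h (y i))
      (fun i => opair (e i) (y i)) c ?_ (clop_V (c i)) ?_ h hi _ H z rfl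
    · refine BPred.all (BPred.imp ?_ ?_)
      · exact BPred.eq BTerm.id.fst (bterm_opair (BTerm.const _) BTerm.snd)
      · exact BPred.eq BTerm.snd (BTerm.const _)
    · intro h hi j hj z hz
      obtain ⟨h1, h2⟩ := pr_inj.1 (show pr h (Mdl.mk h (e j)) (Mdl.mk h (y j)) =
        pr h (Mdl.mk h (e i)) z from hz)
      rw [← hs h j i hj hi h1, h2]
  · rintro rfl
    exact V_coe (e := fun i => opair (e i) (y i)) hi

theorem isFun_hN (hs : Sep e c) {y : ι → BName B} {Q : Ult B → Prop} (hQ : Clop Q)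
    {L : BName B} (hy : ∀ h, Q h → ∀ i, h.V (c i) → E h (Mdl.mk h (y i)) (Mdl.mk h L)) :
    ∀ h, Q h → IsFun (E h) (Mdl.mk h (hN e c y)) (Mdl.mk h (BName.mk ι e c)) (Mdl.mk h L) := by
  intro h hq
  constructor
  · refine forall_mem (P := fun h p => ∃ a b, E h a (Mdl.mk h (BName.mk ι e c)) ∧
      E h b (Mdl.mk h L) ∧ IsPair (E h) p a b) (fun i => opair (e i) (y i)) c ?_ hQ ?_ h hq
    · refine BPred.ex (BPred.ex (BPred.and ?_ (BPred.and ?_ ?_)))
      · exact BPred.mem BTerm.snd.fst (BTerm.const _)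
      · exact BPred.mem BTerm.snd (BTerm.const _)
      · exact bp_isPair BTerm.id.fst.fst BTerm.snd.fst BTerm.snd
    · intro h hq i hi
      exact ⟨_, _, V_coe hi, hy h hq i hi, isPair_iff.2 rfl⟩
  · refine forall_mem (P := fun h a => ∃! b, Has (E h) (Mdl.mk h (hN e c y)) [a, b]) e c ?_ hQ
      ?_ h hq
    · unfold ExistsUnique
      refine BPred.ex (BPred.and ?_ (BPred.all (BPred.imp ?_ ?_)))
      · exact bp_has2 (BTerm.const _) BTerm.id.fst BTerm.snd
      · exact bp_has2 (BTerm.const _) BTerm.id.fst.fst BTerm.snd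
      · exact BPred.eq BTerm.snd BTerm.snd.fst
    · intro h hq i hi
      exact ⟨_, (has_hN hs hi).2 rfl, fun b hb => (has_hN hs hi).1 hb⟩

end hN

/-! ### Values of functions -/

theorem exists_vl (g r : BName B) : ∃ v : BName B, ∀ h : Ult B,
    (∃ z, Has (E h) (Mdl.mk h g) [Mdl.mk h r, z]) →
      Has (E h) (Mdl.mk h g) [Mdl.mk h r, Mdl.mk h v] :=
  exists_wit (P := fun h z => Has (E h) (Mdl.mk h g) [Mdl.mk h r, z])
    (bp_has2 (BTerm.const _) (BTerm.const _) BTerm.id) fun h H => H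

/-- The name of the value of the function `g` at `r`. -/
noncomputable def vl (g r : BName B) : BName B := Classical.choose (exists_vl g r)

theorem has_vl {g r : BName B} {h : Ult B} (H : ∃ z, Has (E h) (Mdl.mk h g) [Mdl.mk h r, z]) :
    Has (E h) (Mdl.mk h g) [Mdl.mk h r, Mdl.mk h (vl g r)] :=
  Classical.choose_spec (exists_vl g r) h H

theorem has_mem {h : Ult B} {f x y a b : Mdl h} (hf : IsFun (E h) f x y)
    (hab : Has (E h) f [a, b]) : E h a x ∧ E h b y := by
  rw [has_iff (by simp)] at hab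
  obtain ⟨a', b', ha, hb, hp⟩ := hf.1 _ hab
  rw [isPair_iff] at hp
  obtain ⟨h1, h2⟩ := pr_inj.1 (show pr h a b = pr h a' b' from hp)
  rw [h1, h2]
  exact ⟨ha, hb⟩

theorem has_vl_of {h : Ult B} {g r : BName B} {x y : Mdl h} (hg : IsFun (E h) (Mdl.mk h g) x y)
    (hr : E h (Mdl.mk h r) x) : Has (E h) (Mdl.mk h g) [Mdl.mk h r, Mdl.mk h (vl g r)] ∧
      E h (Mdl.mk h (vl g r)) y := by
  obtain ⟨z, hz, -⟩ := hg.2 _ hr
  have h1 := has_vl ⟨z, hz⟩
  exact ⟨h1, (has_mem hg h1).2⟩

theorem has_uniq {h : Ult B} {f x y a b b' : Mdl h} (hf : IsFun (E h) f x y)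
    (h1 : Has (E h) f [a, b]) (h2 : Has (E h) f [a, b']) : b = b' :=
  (hf.2 a (has_mem hf h1).1).unique h1 h2

/-! ### Finite sequences -/

/-- The empty name. -/
def emp (B : Type) : BName B := BName.mk Empty (fun x => x.elim) (fun x => x.elim)

theorem not_E_emp {h : Ult B} {z : Mdl h} : ¬ E h z (Mdl.mk h (emp B)) := by
  intro hz
  obtain ⟨z, rfl⟩ := z.exists_rep
  rw [E_mk, emp, bmem_mk, iSup_of_empty] at hz
  exact h.bot hz

theorem isFun_emp {h : Ult B} {F : Mdl h} :
    IsFun (E h) (Mdl.mk h (emp B)) (Mdl.mk h (vN (0 : ℕ))) F :=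
  ⟨fun p hp => (not_E_emp hp).elim, fun a ha => (isEmp_vN_zero h a ha).elim⟩

theorem has_adj {h : Ult B} {s x y : BName B} {a b : Mdl h} :
    Has (E h) (Mdl.mk h (adj s (opair x y))) [a, b] ↔
      Has (E h) (Mdl.mk h s) [a, b] ∨ (a = Mdl.mk h x ∧ b = Mdl.mk h y) := by
  rw [has_iff (by simp), has_iff (by simp), E_adj]
  refine or_congr Iff.rfl ?_
  exact pr_inj (h := h) (a := a) (b := b) (c := Mdl.mk h x) (d := Mdl.mk h y)

theorem isFun_adj {h : Ult B} {s g : BName B} {n : ℕ} {F : Mdl h}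
    (hs : IsFun (E h) (Mdl.mk h s) (Mdl.mk h (vN n)) F) (hg : E h (Mdl.mk h g) F) :
    IsFun (E h) (Mdl.mk h (adj s (opair (vN n) g))) (Mdl.mk h (vN (n + 1))) F := by
  have hn : ¬ E h (Mdl.mk h (vN n)) (Mdl.mk h (vN n)) := by
    rw [E_vN_vN]; exact lt_irrefl n
  constructor
  · intro p hp
    rw [E_adj] at hp
    rcases hp with hp | rfl
    · obtain ⟨a, b, ha, hb, hpab⟩ := hs.1 p hp
      exact ⟨a, b, (E_vN_succ n a).2 (Or.inl ha), hb, hpab⟩
    · exact ⟨_, _, (E_vN_succ n _).2 (Or.inr rfl), hg, isPair_iff.2 rfl⟩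
  · intro a ha
    rw [E_vN_succ] at ha
    rcases ha with ha | rfl
    · obtain ⟨b, hb, hb'⟩ := hs.2 a ha
      refine ⟨b, has_adj.2 (Or.inl hb), fun b' h' => ?_⟩
      rcases has_adj.1 h' with h' | h'
      · exact hb' b' h'
      · rw [h'.1] at ha
        exact (hn ha).elim
    · refine ⟨Mdl.mk h g, has_adj.2 (Or.inr ⟨rfl, rfl⟩), fun b' h' => ?_⟩
      rcases has_adj.1 h' with h' | h'
      · exact (hn (has_mem hs h').1).elim
      · exact h'.2

theorem isRes_uniq {h : Ult B} {s s' f n : Mdl h} (h1 : IsRes (E h) s f n)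
    (h2 : IsRes (E h) s' f n) : s = s' := by
  apply Mdl.ext
  intro z
  rw [h1 z, h2 z]

end Pool.Agent.MPe811a4
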