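import Pool.Agent.MP_e811a4_lc.A

/-! Collapsing a set to a countable one: finite sequences as conditions, and the names of the
sequences read off from the generic sequence. -/

set_option linter.unusedVariables false
set_option linter.unusedSectionVars false
set_option linter.unreachableTactic false
set_option linter.unusedTactic false

namespace Pool.Agent.MPe811a4

open BVM BName SetModel MP63050e MP7e7dde

/-- The conditions: finite sequences (lists, the last entry comes first). -/
structure Cnd (Ω : Type) : Type where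
  /-- the list -/
  l : List Ω

/-- `q` is stronger than `p` if it extends `p`. -/
instance (Ω : Type) : Preorder (Cnd Ω) where
  le q p := p.l <:+ q.l
  le_refl p := List.suffix_refl p.l
  le_trans _ _ _ h1 h2 := h2.trans h1

variable {B : Type} [CompleteBooleanAlgebra B] {Ω : Type} {em : Cnd Ω → B}

theorem level_uniq (hem : DenseEmb em) {h : Ult B} {l l' : List Ω} (hl : h.V (em ⟨l⟩))
    (hl' : h.V (em ⟨l'⟩)) (hlen : l.length = l'.length) : l = l' := by
  obtain ⟨r, h1, h2⟩ := hem.compat ⟨l⟩ ⟨l'⟩ (h.ne_bot ((h.inf' _ _).2 ⟨hl, hl'⟩))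
  have h1' : l <:+ r.l := h1
  have h2' : l' <:+ r.l := h2
  exact (List.suffix_of_suffix_length_le h1' h2' hlen.le).eq_of_length hlen

theorem V_tail (hem : DenseEmb em) {h : Ult B} {l : List Ω} {o : Ω} (hl : h.V (em ⟨o :: l⟩)) :
    h.V (em ⟨l⟩) :=
  h.mono (hem.mono ⟨o :: l⟩ ⟨l⟩ (List.suffix_cons o l)) hl

theorem V_suffix (hem : DenseEmb em) {h : Ult B} {l l' : List Ω} (hl : h.V (em ⟨l'⟩))
    (hll : l <:+ l') : h.V (em ⟨l⟩) :=
  h.mono (hem.mono ⟨l'⟩ ⟨l⟩ hll) hl

/-- It suffices to prove a statement under the conditions of a given length. -/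
theorem of_level [Nonempty Ω] (hem : DenseEmb em) (n : ℕ) {Q R : Ult B → Prop} (hQ : Clop Q)
    (hR : Clop R) (H : ∀ l : List Ω, l.length = n → ∀ h, Q h → h.V (em ⟨l⟩) → R h) :
    ∀ h, Q h → R h := by
  refine imp_of_fo hem hQ hR fun p hp => ?_
  set m : List Ω := List.replicate n (Classical.arbitrary Ω) ++ p.l with hm
  have hlen : n ≤ m.length := by
    rw [hm, List.length_append, List.length_replicate]; omega
  have hle : (⟨m⟩ : Cnd Ω) ≤ p := List.suffix_append _ _
  refine ⟨⟨m⟩, hle, fun h hh => ?_⟩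
  have h1 : Q h := hp h (h.mono (hem.mono _ _ hle) hh)
  refine H (m.drop (m.length - n)) ?_ h h1 (V_suffix hem hh (List.drop_suffix _ _))
  rw [List.length_drop]
  omega

theorem forall_level [Nonempty Ω] (hem : DenseEmb em) (n : ℕ) {R : Ult B → Prop}
    (hR : Clop R) (H : ∀ l : List Ω, l.length = n → ∀ h, h.V (em ⟨l⟩) → R h) :
    ∀ h, R h := fun h => of_level hem n clop_true hR (fun l hl h _ => H l hl h) h trivial

/-! ### Sequences -/

/-- The index family of the sequences. -/
noncomputable def sE (B : Type) [CompleteBooleanAlgebra B] (Ω : Type) (p : List Ω × Ω) : BName B :=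
  vN p.1.length

/-- The coefficients of the sequences. -/
def sC (em : Cnd Ω → B) (p : List Ω × Ω) : B := em ⟨p.2 :: p.1⟩

theorem sep_seq (hem : DenseEmb em) : Sep (sE B Ω) (sC em) := by
  rintro h ⟨l, o⟩ ⟨l', o'⟩ hi hj he
  have h1 : l.length = l'.length := vN_inj.1 he
  have h2 : o :: l = o' :: l' := level_uniq hem hi hj (by simp [h1])
  rw [List.cons.injEq] at h2
  rw [h2.1, h2.2]

theorem seq_dom [Nonempty Ω] (hem : DenseEmb em) (h : Ult B) :
    Mdl.mk h (BName.mk (List Ω × Ω) (sE B Ω) (sC em)) = Mdl.mk h (omN B) := by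
  apply Mdl.ext
  intro z
  constructor
  · refine forall_mem' (P := fun h z => E h z (Mdl.mk h (omN B))) _ _ ?_ ?_ h z
    · exact BPred.mem BTerm.id (BTerm.const _)
    · intro h p _
      exact E_vN_vNset _
  · refine forall_full (P := fun h z =>
      E h z (Mdl.mk h (BName.mk (List Ω × Ω) (sE B Ω) (sC em)))) _ ?_ ⊤ ?_ h h.top' z
    · exact BPred.mem BTerm.id (BTerm.const _)
    · intro h _ n
      refine forall_level hem (n + 1) (R := fun h => E h (Mdl.mk h (vN n))
        (Mdl.mk h (BName.mk (List Ω × Ω) (sE B Ω) (sC em)))) ?_ ?_ h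
      · exact ⟨_, fun h => E_mk⟩
      · intro l hl h hh
        cases l with
        | nil => simp at hl
        | cons o l =>
          have h1 : l.length = n := by simpa using hl
          subst h1
          exact V_coe (e := sE B Ω) (c := sC em) (i := (l, o)) hh

/-- The name of the sequence whose term of index `l.length` is `y l o` under the condition
`o :: l`. -/
noncomputable def gN (em : Cnd Ω → B) (y : List Ω → Ω → BName B) : BName B :=
  hN (sE B Ω) (sC em) (fun p => y p.1 p.2)

theorem has_gN (hem : DenseEmb em) {y : List Ω → Ω → BName B} {h : Ult B} {l : List Ω} {o : Ω}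
    (hl : h.V (em ⟨o :: l⟩)) {z : Mdl h} :
    Has (E h) (Mdl.mk h (gN em y)) [Mdl.mk h (vN l.length), z] ↔ z = Mdl.mk h (y l o) :=
  has_hN (sep_seq hem) (i := (l, o)) hl

theorem isFun_gN [Nonempty Ω] (hem : DenseEmb em) {y : List Ω → Ω → BName B}
    {Q : Ult B → Prop} (hQ : Clop Q) {F : BName B}
    (hy : ∀ h, Q h → ∀ l o, h.V (em ⟨o :: l⟩) → E h (Mdl.mk h (y l o)) (Mdl.mk h F)) :
    ∀ h, Q h → IsFun (E h) (Mdl.mk h (gN em y)) (Mdl.mk h (omN B)) (Mdl.mk h F) := by
  intro h hq
  rw [← seq_dom hem h]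
  exact isFun_hN (sep_seq hem) hQ (fun h hq p hp => hy h hq p.1 p.2 hp) h hq

theorem isRes_gN (hem : DenseEmb em) {y : List Ω → Ω → BName B} {q : List Ω → BName B}
    (hq0 : q [] = emp B)
    (hq : ∀ o l, q (o :: l) = adj (q l) (opair (vN l.length) (y l o))) {h : Ult B} (l : List Ω)
    (hl : h.V (em ⟨l⟩)) :
    IsRes (E h) (Mdl.mk h (q l)) (Mdl.mk h (gN em y)) (Mdl.mk h (vN l.length)) := by
  induction l with
  | nil =>
    intro p
    rw [hq0]
    constructor
    · intro hp
      exact (not_E_emp hp).elim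
    · rintro ⟨-, a, b, ha, -⟩
      exact (isEmp_vN_zero h a ha).elim
  | cons o l ih =>
    have ih := ih (V_tail hem hl)
    intro p
    rw [hq, E_adj, ih p, List.length_cons]
    constructor
    · rintro (⟨h1, a, b, ha, hp⟩ | rfl)
      · exact ⟨h1, a, b, (E_vN_succ _ _).2 (Or.inl ha), hp⟩
      · refine ⟨V_coe (e := fun p : List Ω × Ω => opair (sE B Ω p) (y p.1 p.2)) (c := sC em)
          (i := (l, o)) hl, Mdl.mk h (vN l.length), Mdl.mk h (y l o),
          (E_vN_succ _ _).2 (Or.inr rfl), isPair_iff.2 rfl⟩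
    · rintro ⟨h1, a, b, ha, hp⟩
      rw [E_vN_succ] at ha
      rcases ha with ha | rfl
      · exact Or.inl ⟨h1, a, b, ha, hp⟩
      · right
        rw [isPair_iff] at hp
        subst hp
        have h2 : Has (E h) (Mdl.mk h (gN em y)) [Mdl.mk h (vN l.length), b] :=
          (has_iff (by simp)).2 h1
        rw [has_gN hem hl] at h2
        rw [h2]
        rfl

end Pool.Agent.MPe811a4
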