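import Mathlib

/-! Ordinals of cofinality `ω₁` below `ω₂` which are closed under a function. -/

namespace Pool.Agent.MPe811a4

open Cardinal

theorem exists_bdd {X I : Type} [LinearOrder X] {μ : Cardinal.{0}} (hμ : ℵ₀ ≤ μ) (hX : μ < #X)
    (hseg : ∀ x : X, #{y : X // y ≤ x} ≤ μ) (hI : #I ≤ μ) (φ : I → X) : ∃ b, ∀ i, φ i < b := by
  by_contra hcon
  push Not at hcon
  choose i hi using hcon
  apply hX.not_ge
  calc #X ≤ #(Σ i : I, {y : X // y ≤ φ i}) :=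
        Cardinal.mk_le_of_injective (f := fun b => (⟨i b, b, hi b⟩ : Σ i : I, {y : X // y ≤ φ i}))
          (fun a b hab => by
            have := congrArg (fun p : Σ i : I, {y : X // y ≤ φ i} => (p.2 : X)) hab
            exact this)
    _ = Cardinal.sum fun i => #{y : X // y ≤ φ i} := Cardinal.mk_sigma _
    _ ≤ Cardinal.sum fun _ : I => μ := Cardinal.sum_le_sum _ _ fun i => hseg _
    _ = #I * μ := by simp
    _ ≤ μ * μ := by gcongr
    _ = μ := Cardinal.mul_eq_self hμ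

/-- `δ` has uncountable cofinality. -/
def Good {Θ : Type} [LinearOrder Θ] (δ : Θ) : Prop :=
  ∀ f : ℕ → Θ, (∀ n, f n < δ) → ∃ β, β < δ ∧ ∀ n, f n < β

/-- What is used of the pair `(ω₁, ω₂)`. -/
structure Pair (Ω Θ : Type) [LinearOrder Ω] [LinearOrder Θ] : Prop where
  cardΩ : #Ω = ℵ_ 1
  segΩ : ∀ x : Ω, #{y : Ω // y ≤ x} ≤ ℵ₀
  cardΘ : ℵ_ 1 < #Θ
  segΘ : ∀ x : Θ, #{y : Θ // y ≤ x} ≤ ℵ_ 1

theorem exists_pair : ∃ (Ω Θ : Type) (_ : LinearOrder Ω) (_ : WellFoundedLT Ω)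
    (_ : LinearOrder Θ) (_ : WellFoundedLT Θ), Pair Ω Θ := by
  have h1 : #(ℵ_ 1).ord.ToType = ℵ_ 1 := Cardinal.mk_ord_toType _
  have h2 : #(ℵ_ 2).ord.ToType = ℵ_ 2 := Cardinal.mk_ord_toType _
  have h12 : Order.succ (ℵ_ 1) = ℵ_ 2 := by
    rw [Cardinal.succ_aleph]
    congr 1
    norm_num
  refine ⟨(ℵ_ 1).ord.ToType, (ℵ_ 2).ord.ToType, inferInstance, inferInstance, inferInstance,
    inferInstance, ?_, ?_, ?_, ?_⟩
  · exact h1
  · intro x
    have := Cardinal.mk_Iic_lt x (by simp) (by rw [h1]; exact Cardinal.aleph0_le_aleph 1)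
    rw [h1, Cardinal.lt_aleph_one_iff] at this
    exact this
  · rw [h2, ← h12]
    exact Order.lt_succ _
  · intro x
    have := Cardinal.mk_Iic_lt x (by simp) (by rw [h2]; exact Cardinal.aleph0_le_aleph 2)
    rw [h2] at this
    exact Order.lt_succ_iff.1 (this.trans_eq h12.symm)

section

variable {Ω Θ : Type} [LinearOrder Ω] [LinearOrder Θ] (P : Pair Ω Θ)

include P

theorem Pair.nonempty : Nonempty Ω := by
  rw [← Cardinal.mk_ne_zero_iff, P.cardΩ]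
  exact (Cardinal.aleph_pos 1).ne'

theorem Pair.bddΘ {I : Type} (hI : #I ≤ ℵ_ 1) (φ : I → Θ) : ∃ b, ∀ i, φ i < b :=
  exists_bdd (Cardinal.aleph0_le_aleph 1) P.cardΘ P.segΘ hI φ

theorem Pair.bddΩ {I : Type} (hI : #I ≤ ℵ₀) (φ : I → Ω) : ∃ b, ∀ i, φ i < b :=
  exists_bdd le_rfl (by rw [P.cardΩ]; exact Cardinal.aleph0_lt_aleph_one) P.segΩ hI φ

theorem Pair.exists_closed [WellFoundedLT Ω] [WellFoundedLT Θ] (G : List Θ → Θ) : ∃ δ : Θ,
    (∀ t : List Θ, (∀ ξ ∈ t, ξ < δ) → G t < δ) ∧ Good δ ∧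
      ∃ u : Ω → Θ, (∀ o, u o < δ) ∧ ∀ b, b < δ → ∃ o, u o = b := by
  classical
  -- one step
  have hC : ∀ γ : Θ, ∃ C : Θ, γ < C ∧ ∀ t : List Θ, (∀ ξ ∈ t, ξ ≤ γ) → G t < C := by
    intro γ
    obtain ⟨C, hC⟩ := P.bddΘ (I := List {y : Θ // y ≤ γ})
      ((Cardinal.mk_list_le_max _).trans (max_le (Cardinal.aleph0_le_aleph 1) (P.segΘ γ)))
      (fun s => max (G (s.map Subtype.val)) γ)
    refine ⟨C, (le_max_right _ _).trans_lt (hC []), fun t ht => ?_⟩
    have h1 := hC (t.attach.map fun x => ⟨x.1, ht x.1 x.2⟩)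
    have h2 : (t.attach.map fun x => (⟨x.1, ht x.1 x.2⟩ : {y : Θ // y ≤ γ})).map Subtype.val = t := by
      rw [List.map_map]
      exact List.attach_map_subtype_val t
    rw [h2] at h1
    exact (le_max_left _ _).trans_lt h1
  choose C hC1 hC2 using hC
  -- iteration
  have hU : ∀ (a : Ω) (φ : {b : Ω // b < a} → Θ), ∃ u, ∀ b, φ b < u := by
    intro a φ
    refine P.bddΘ ((Cardinal.mk_subtype_le _).trans ?_) φ
    rw [P.cardΩ]
  choose U hU using hU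
  let β : Ω → Θ := WellFounded.fix (C := fun _ => Θ) (wellFounded_lt (α := Ω))
    (fun a ih => U a (fun b => C (ih b.1 b.2)))
  have hβ' : ∀ a, β a = U a (fun b => C (β b.1)) := fun a => WellFounded.fix_eq _ _ _
  have hβ : ∀ a b, b < a → C (β b) < β a := fun a b hba => by
    rw [hβ' a]
    exact hU a (fun b => C (β b.1)) ⟨b, hba⟩
  have hmono : ∀ a b, b < a → β b < β a := fun a b hba => (hC1 _).trans (hβ a b hba)
  have hmono' : ∀ a b, b ≤ a → β b ≤ β a := fun a b hba => by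
    rcases hba.lt_or_eq with h | rfl
    · exact (hmono a b h).le
    · exact le_rfl
  obtain ⟨x, hx⟩ := P.bddΘ (by rw [P.cardΩ]) β
  obtain ⟨δ, hδ, hmin⟩ : ∃ δ : Θ, (∀ a, β a < δ) ∧ ∀ x, (∀ a, β a < x) → δ ≤ x := by
    refine ⟨(wellFounded_lt (α := Θ)).min {x | ∀ a, β a < x} ⟨x, hx⟩,
      (wellFounded_lt (α := Θ)).min_mem {x | ∀ a, β a < x} ⟨x, hx⟩, fun x hx => ?_⟩
    exact not_lt.1 ((wellFounded_lt (α := Θ)).not_lt_min {x | ∀ a, β a < x} hx)
  have hex : ∀ ξ, ξ < δ → ∃ a, ξ ≤ β a := by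
    intro ξ hξ
    by_contra hcon
    push Not at hcon
    exact absurd hξ (hmin ξ hcon).not_gt
  have hnext : ∀ a : Ω, ∃ a', a < a' := fun a => by
    obtain ⟨b, hb⟩ := P.bddΩ (I := Unit) (by simp) (fun _ => a)
    exact ⟨b, hb ()⟩
  refine ⟨δ, ?_, ?_, ?_⟩
  · intro t ht
    have : ∃ a, ∀ ξ ∈ t, ξ ≤ β a := by
      induction t with
      | nil => exact ⟨P.nonempty.some, by simp⟩
      | cons ξ t ih =>
        obtain ⟨a, ha⟩ := ih fun ξ' h' => ht ξ' (List.mem_cons_of_mem _ h')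
        obtain ⟨a', ha'⟩ := hex ξ (ht ξ (List.mem_cons_self))
        refine ⟨max a a', fun ξ' h' => ?_⟩
        rw [List.mem_cons] at h'
        rcases h' with rfl | h'
        · exact ha'.trans (hmono' _ _ (le_max_right _ _))
        · exact (ha ξ' h').trans (hmono' _ _ (le_max_left _ _))
    obtain ⟨a, ha⟩ := this
    obtain ⟨a', haa'⟩ := hnext a
    exact (hC2 _ t ha).trans ((hβ a' a haa').trans (hδ a'))
  · intro f hf
    choose a ha using fun n => hex (f n) (hf n)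
    obtain ⟨b, hb⟩ := P.bddΩ (I := ℕ) (by simp) a
    exact ⟨β b, hδ b, fun n => (ha n).trans_lt (hmono b (a n) (hb n))⟩
  · have h1 : #{y : Θ // y < δ} ≤ #Ω := by
      rw [P.cardΩ]
      refine le_trans ?_ (P.segΘ δ)
      exact Cardinal.mk_subtype_mono fun y hy => le_of_lt hy
    obtain ⟨⟨j, hj⟩⟩ := Cardinal.le_def _ _ |>.1 h1
    have hne : Nonempty {y : Θ // y < δ} := ⟨⟨β P.nonempty.some, hδ _⟩⟩
    refine ⟨fun o => (Function.invFun j o).1, fun o => (Function.invFun j o).2, fun b hb => ?_⟩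
    refine ⟨j ⟨b, hb⟩, ?_⟩
    exact congrArg Subtype.val (Function.leftInverse_invFun hj ⟨b, hb⟩)

end

end Pool.Agent.MPe811a4
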