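import Pool.Agent.MP_e811a4_lc.B
import Pool.Agent.MP_e811a4_lc.C

/-! The collapse of `ω₁`: the old `ω₂` is the new `ω₁`. -/

set_option linter.unusedVariables false
set_option linter.unusedSectionVars false
set_option linter.unreachableTactic false
set_option linter.unusedTactic false

namespace Pool.Agent.MPe811a4

open BVM BName SetModel MP63050e MP7e7dde Cardinal

variable {B : Type} [CompleteBooleanAlgebra B]

theorem isInj_hN {ι : Type} {e : ι → BName B} {c : ι → B} {y : ι → BName B} (hs : Sep e c)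
    (hy : ∀ (h : Ult B) i j, h.V (c i) → h.V (c j) → Mdl.mk h (y i) = Mdl.mk h (y j) → i = j)
    {L : BName B} (hL : ∀ (h : Ult B) i, h.V (c i) → E h (Mdl.mk h (y i)) (Mdl.mk h L))
    (h : Ult B) : Injects (E h) (Mdl.mk h (BName.mk ι e c)) (Mdl.mk h L) := by
  refine ⟨Mdl.mk h (hN e c y), isFun_hN hs clop_true (fun h _ i hi => hL h i hi) h trivial, ?_⟩
  intro a a' b ha ha' h1 h2
  refine forall_mem' (P := fun h a => ∀ a' b, E h a' (Mdl.mk h (BName.mk ι e c)) →
    Has (E h) (Mdl.mk h (hN e c y)) [a, b] → Has (E h) (Mdl.mk h (hN e c y)) [a', b] →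
    a = a') e c ?_ ?_ h a ha a' b ha' h1 h2
  · repeat' first
      | exact BMap.id
      | apply BMap.fst
      | apply BMap.snd
      | exact BTerm.const _
      | apply bterm_opair
      | apply BTerm.of
      | apply BPred.mem
      | apply BPred.eq
      | apply bp_has2
      | apply bp_has3
      | apply bp_isTuple3
      | apply bp_eq_pr
      | apply bp_isPair
      | apply bp_isUPair
      | apply bp_isFun
      | apply bp_injects
      | apply BPred.not
      | apply BPred.and
      | apply BPred.or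
      | apply BPred.iff
      | apply BPred.imp
      | refine BPred.ex ?_
      | refine BPred.all ?_
      | exact BPred.const _
  · intro h i hi a' b ha' h1 h2
    rw [has_hN hs hi] at h1
    subst h1
    refine forall_mem (P := fun h a' => Has (E h) (Mdl.mk h (hN e c y))
      [a', Mdl.mk h (y i)] → Mdl.mk h (e i) = a') e c ?_ (clop_V (c i)) ?_ h hi a' ha' h2
    · repeat' first
        | exact BMap.id
        | apply BMap.fst
        | apply BMap.snd
        | exact BTerm.const _
        | apply bterm_opair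
        | apply BTerm.of
        | apply BPred.mem
        | apply BPred.eq
        | apply bp_has2
        | apply bp_has3
        | apply bp_isTuple3
        | apply bp_eq_pr
        | apply bp_isPair
        | apply bp_isUPair
        | apply bp_isFun
        | apply bp_injects
        | apply BPred.not
        | apply BPred.and
        | apply BPred.or
        | apply BPred.iff
        | apply BPred.imp
        | refine BPred.ex ?_
        | refine BPred.all ?_
        | exact BPred.const _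
    · intro h hi j hj h3
      rw [has_hN hs hj] at h3
      rw [hy h i j hi hj h3]

theorem not_injects_small {X Y P : Type} [Preorder P] {em : P → B} (hem : DenseEmb em)
    {ex : X → BName B} {ey : Y → BName B} (hX : ∀ x x', x ≠ x' → beq (ex x) (ex x') = ⊥)
    (hbig : ∀ g : X → P × Y, ∃ x x', x ≠ x' ∧ g x = g x') (h : Ult B) :
    ¬ Injects (E h) (Mdl.mk h (BName.mk X ex (fun _ => ⊤)))
      (Mdl.mk h (BName.mk Y ey (fun _ => ⊤))) := by
  rintro ⟨f, hf, hinj⟩
  obtain ⟨f, rfl⟩ := f.exists_rep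
  set NX : BName B := BName.mk X ex (fun _ => ⊤) with hNX
  set NY : BName B := BName.mk Y ey (fun _ => ⊤) with hNY
  let Q : Ult B → PUnit.{1} → Prop := fun h _ => IsFun (E h) (Mdl.mk h f) (Mdl.mk h NX) (Mdl.mk h NY) ∧
    ∀ a a' b, E h a (Mdl.mk h NX) → E h a' (Mdl.mk h NX) → Has (E h) (Mdl.mk h f) [a, b] →
      Has (E h) (Mdl.mk h f) [a', b] → a = a'
  have hQ : BPred (fun h : Ult B => h) Q := by
    refine BPred.and ?_ ?_
    · exact bp_isFun (BTerm.const _) (BTerm.const _) (BTerm.const _)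
    · refine BPred.all (BPred.all (BPred.all (BPred.imp ?_ (BPred.imp ?_ (BPred.imp ?_
        (BPred.imp ?_ ?_))))))
      · exact BPred.mem BTerm.snd.fst.fst (BTerm.const _)
      · exact BPred.mem BTerm.snd.fst (BTerm.const _)
      · exact bp_has2 (BTerm.const _) BTerm.snd.fst.fst BTerm.snd
      · exact bp_has2 (BTerm.const _) BTerm.snd.fst BTerm.snd
      · exact BPred.eq BTerm.snd.fst.fst BTerm.snd.fst
  have hQc := hQ.clop PUnit.unit
  set b : B := bval (fun h => Q h PUnit.unit) with hb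
  have hbV : h.V b := (hQc.iff h).1 ⟨hf, hinj⟩
  have hbne : b ≠ ⊥ := h.ne_bot hbV
  have hR : ∀ (x : X), BPred (fun h : Ult B => h)
      (fun h (y : BName B) => Has (E h) (Mdl.mk h f) [Mdl.mk h (ex x), Mdl.mk h y]) :=
    fun x => bp_has2 (BTerm.const _) (BTerm.const _) BTerm.id
  let c : X → Y → B := fun x y =>
    bval (fun h => Has (E h) (Mdl.mk h f) [Mdl.mk h (ex x), Mdl.mk h (ey y)])
  have hc : ∀ x y (h : Ult B), Has (E h) (Mdl.mk h f) [Mdl.mk h (ex x), Mdl.mk h (ey y)] ↔
      h.V (c x y) := fun x y h => ((hR x).clop (ey y)).iff h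
  have hsup : ∀ x, b ≤ ⨆ y, c x y := by
    intro x
    refine exists_full (P := fun h y => Has (E h) (Mdl.mk h f) [Mdl.mk h (ex x), y]) ey (hR x) ?_
    intro h' hb'
    have hq : Q h' PUnit.unit := (hQc.iff h').2 hb'
    obtain ⟨y, hy, -⟩ := hq.1.2 (Mdl.mk h' (ex x)) (E_of_full _ _ _)
    exact ⟨y, (has_mem hq.1 hy).2, hy⟩
  have hne : ∀ x, ∃ y p, em p ≤ b ⊓ c x y := by
    intro x
    by_contra hcon
    push Not at hcon
    apply hbne
    have h1 : b ⊓ ⨆ y, c x y = ⊥ := by
      rw [inf_iSup_eq]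
      have : ∀ y, b ⊓ c x y = ⊥ := fun y => by
        by_contra hy
        obtain ⟨p, hp⟩ := hem.dense _ hy
        exact hcon y p hp
      simp only [this, iSup_bot]
    rwa [inf_eq_left.2 (hsup x)] at h1
  choose g p hp using hne
  obtain ⟨x, x', hxx, hg⟩ := hbig (fun x => (p x, g x))
  obtain ⟨hg1, hg2⟩ := Prod.mk.inj hg
  obtain ⟨h', hh⟩ := Ult.exists_of_ne_bot (hem.ne_bot (p x))
  have h1 := h'.mono (hp x) hh
  have h2 := h'.mono (hp x') (hg1 ▸ hh)
  rw [h'.inf', ← hc] at h1 h2
  have hq : Q h' PUnit.unit := (hQc.iff h').2 h1.1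
  have h3 := hq.2 _ _ _ (E_of_full ex h' x) (E_of_full ex h' x') h1.2 (by rw [hg2]; exact h2.2)
  exact ne_of_beq_bot (hX x x' hxx) h' h3

section

variable {Ω Θ : Type} [LinearOrder Ω] [WellFoundedLT Ω] [LinearOrder Θ] [WellFoundedLT Θ]
  {em : Cnd Ω → B}

theorem mk_cnd (P : Pair Ω Θ) : #(Cnd Ω) ≤ ℵ_ 1 := by
  have h1 : #(Cnd Ω) ≤ #(List Ω) :=
    Cardinal.mk_le_of_injective (f := Cnd.l) (fun a b hab => by cases a; cases b; simp_all)
  refine h1.trans ((Cardinal.mk_list_le_max _).trans ?_)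
  rw [P.cardΩ]
  exact max_le (Cardinal.aleph0_le_aleph 1) le_rfl

/-- Names of elements of `Θ` are bounded. -/
theorem exists_bound (P : Pair Ω Θ) (hem : DenseEmb em) {z : BName B} {Q : Ult B → Prop}
    (hQ : Clop Q) (hz : ∀ h, Q h → E h (Mdl.mk h z) (Mdl.mk h (vNset B Θ))) :
    ∃ b : Θ, ∀ h, Q h → E h (Mdl.mk h z) (Mdl.mk h (vN b)) := by
  have hΘ : Nonempty Θ := by
    rw [← Cardinal.mk_ne_zero_iff]
    exact ((Cardinal.aleph_pos 1).trans P.cardΘ).ne'
  have hd : ∀ p : Cnd Ω, ∃ b : Θ, ∀ b' : Θ,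
      (∀ h : Ult B, h.V (em p) → Mdl.mk h z = Mdl.mk h (vN b')) → b' = b := by
    intro p
    by_cases H : ∃ b : Θ, ∀ h : Ult B, h.V (em p) → Mdl.mk h z = Mdl.mk h (vN b)
    · obtain ⟨b, hb⟩ := H
      refine ⟨b, fun b' hb' => ?_⟩
      obtain ⟨h, hh⟩ := Ult.exists_of_ne_bot (hem.ne_bot p)
      exact vN_inj.1 ((hb' h hh).symm.trans (hb h hh))
    · exact ⟨Classical.arbitrary Θ, fun b' hb' => (H ⟨b', hb'⟩).elim⟩
  choose d hd using hd
  obtain ⟨b, hb⟩ := P.bddΘ (mk_cnd P) d
  refine ⟨b, imp_of_fo hem hQ ⟨_, fun h => E_mk⟩ fun p hp => ?_⟩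
  obtain ⟨q, hqp, i, hi⟩ := decide_mem hem (vN : Θ → BName B) (fun _ => ⊤)
    (Q := fun h x => x = Mdl.mk h z) (BPred.eq BTerm.id (BTerm.const _)) (p := p)
    (fun h hh => ⟨Mdl.mk h z, hz h (hp h hh), rfl⟩)
  refine ⟨q, hqp, fun h hh => ?_⟩
  have h1 : i = d q := hd q i fun h hh => (hi h hh).2.symm
  change E h (Mdl.mk h z) (Mdl.mk h (vN b))
  rw [← (hi h hh).2, E_vN_vN, h1]
  exact hb q

theorem exists_first {o : Ω} : ∀ {l : List Ω}, o ∈ l → ∃ l', o ∉ l' ∧ (o :: l') <:+ l
  | [], h => by simp at h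
  | a :: l, h => by
    by_cases hl : o ∈ l
    · obtain ⟨l', h1, h2⟩ := exists_first hl
      exact ⟨l', h1, h2.trans (List.suffix_cons a l)⟩
    · rw [List.mem_cons] at h
      rcases h with rfl | h
      · exact ⟨l, hl, List.suffix_refl _⟩
      · exact (hl h).elim

/-- Every element of `Θ` becomes countable. -/
theorem injects_omega (P : Pair Ω Θ) (hem : DenseEmb em) (x : Θ) (h : Ult B) :
    Injects (E h) (Mdl.mk h (vN x)) (Mdl.mk h (omN B)) := by
  classical
  obtain ⟨⟨j, hj⟩⟩ : Nonempty ({y : Θ // y < x} ↪ Ω) := by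
    rw [← Cardinal.le_def, P.cardΩ]
    refine le_trans ?_ (P.segΘ x)
    exact Cardinal.mk_subtype_mono fun y hy => le_of_lt hy
  let ι : Type := {p : {y : Θ // y < x} × List Ω // j p.1 ∉ p.2}
  let e : ι → BName B := fun p => vN p.1.1.1
  let c : ι → B := fun p => em ⟨j p.1.1 :: p.1.2⟩
  let y : ι → BName B := fun p => vN p.1.2.length
  have hlen : ∀ (h : Ult B) (p q : ι), h.V (c p) → h.V (c q) →
      p.1.2.length = q.1.2.length → p = q := by
    intro h p q hp hq hpq
    have h1 := level_uniq hem hp hq (by simp [hpq])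
    rw [List.cons.injEq] at h1
    exact Subtype.ext (Prod.ext (hj h1.1) h1.2)
  have hs : Sep e c := by
    intro h p q hp hq hpq
    have h1 : p.1.1.1 = q.1.1.1 := vN_inj.1 hpq
    have h2 : p.1.1 = q.1.1 := Subtype.ext h1
    have key : ∀ p q : ι, h.V (c p) → h.V (c q) → p.1.1 = q.1.1 →
        ¬ p.1.2.length < q.1.2.length := by
      intro p q hp hq hpq hlt
      have h3 : h.V (em ⟨q.1.2⟩) := V_tail hem hq
      have h4 : (j p.1.1 :: p.1.2) <:+ q.1.2 := by
        have h5 : h.V (em ⟨q.1.2.drop (q.1.2.length - (p.1.2.length + 1))⟩) :=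
          V_suffix hem h3 (List.drop_suffix _ _)
        rw [level_uniq hem hp h5 (by
          rw [List.length_cons, List.length_drop]; omega)]
        exact List.drop_suffix _ _
      apply q.2
      rw [← hpq]
      exact h4.subset (List.mem_cons_self)
    refine hlen h p q hp hq ?_
    rcases lt_trichotomy p.1.2.length q.1.2.length with h3 | h3 | h3
    · exact (key p q hp hq h2 h3).elim
    · exact h3
    · exact (key q p hq hp h2.symm h3).elim
  have hdom : Mdl.mk h (BName.mk ι e c) = Mdl.mk h (vN x) := by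
    rw [vN_eq]
    apply Mdl.ext
    intro z
    constructor
    · refine forall_mem' (P := fun h z => E h z (Mdl.mk h (BName.mk {y : Θ // y < x}
        (fun y => vN y.1) (fun _ => ⊤)))) e c ?_ ?_ h z
      · exact BPred.mem BTerm.id (BTerm.const _)
      · intro h p _
        exact E_of_full (fun y : {y : Θ // y < x} => (vN y.1 : BName B)) h p.1.1
    · refine forall_full (P := fun h z => E h z (Mdl.mk h (BName.mk ι e c))) _ ?_ ⊤ ?_ h h.top' z
      · exact BPred.mem BTerm.id (BTerm.const _)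
      · intro h _ y
        refine imp_of_fo hem clop_true (R := fun h => E h (Mdl.mk h (vN y.1))
          (Mdl.mk h (BName.mk ι e c))) ⟨_, fun h => E_mk⟩ ?_ h trivial
        intro p _
        obtain ⟨q, hqp, l', h1, h2⟩ : ∃ q, q ≤ p ∧ ∃ l', j y ∉ l' ∧ (j y :: l') <:+ q.l := by
          by_cases hy : j y ∈ p.l
          · obtain ⟨l', h1, h2⟩ := exists_first hy
            exact ⟨p, le_rfl, l', h1, h2⟩
          · exact ⟨⟨j y :: p.l⟩, List.suffix_cons _ _, p.l, hy, List.suffix_refl _⟩
        refine ⟨q, hqp, fun h hh => ?_⟩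
        exact V_coe (e := e) (c := c) (i := ⟨(y, l'), h1⟩) (V_suffix hem hh h2)
  rw [← hdom]
  exact isInj_hN hs (y := y) (fun h p q hp hq hpq => hlen h p q hp hq (vN_inj.1 hpq))
    (fun h p hp => E_vN_vNset _) h

theorem isOmega1 (P : Pair Ω Θ) (hem : DenseEmb em) (h : Ult B) :
    IsOmega1 (E h) (Mdl.mk h (vNset B Θ)) := by
  refine ⟨Mdl.mk h (omN B), isOmega h, isOrd_vNset h, ?_, ?_⟩
  · intro a ha
    refine forall_full (P := fun h a => Injects (E h) a (Mdl.mk h (omN B))) _ ?_ ⊤ ?_ h h.top' a ha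
    · exact bp_injects BTerm.id (BTerm.const _)
    · intro h' _ x
      exact injects_omega P hem x h'
  · refine not_injects_small hem (fun x x' hxx => beq_vN_ne hxx) (fun g => ?_) h
    by_contra hcon
    push Not at hcon
    have hinj : Function.Injective g := fun x x' hg => by
      by_contra hne
      exact hcon x x' hne hg
    have h1 := Cardinal.mk_le_of_injective hinj
    rw [Cardinal.mk_prod, Cardinal.lift_id, Cardinal.lift_id, Cardinal.mk_nat] at h1
    have h2 : #(Cnd Ω) * ℵ₀ ≤ ℵ_ 1 :=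
      (mul_le_mul' (mk_cnd P) (Cardinal.aleph0_le_aleph 1)).trans
        (Cardinal.mul_eq_self (Cardinal.aleph0_le_aleph 1)).le
    exact absurd (h1.trans h2) (not_le.2 P.cardΘ)

end

end Pool.Agent.MPe811a4
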