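import Pool.Agent.MP_e811a4_lc.D

/-! The names of the objects of the statement. -/

set_option linter.unusedVariables false
set_option linter.unusedSectionVars false
set_option linter.unreachableTactic false
set_option linter.unusedTactic false

namespace Pool.Agent.MPe811a4

open BVM BName SetModel MP63050e MP7e7dde

variable {B : Type} [CompleteBooleanAlgebra B]

theorem clop_mem (x y : BName B) : Clop (fun h => E h (Mdl.mk h x) (Mdl.mk h y)) :=
  ⟨_, fun _ => E_mk⟩

theorem clop_isFun (f x y : BName B) :
    Clop (fun h => IsFun (E h) (Mdl.mk h f) (Mdl.mk h x) (Mdl.mk h y)) :=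
  (bp_isFun (H := fun h : Ult B => h) (Γ := PUnit.{1}) (BTerm.const f) (BTerm.const x)
    (BTerm.const y)).clop PUnit.unit

/-! ### Products and function sets -/

/-- A name of a set containing all pairs of elements of `K` and `L`. -/
def prodN (K L : BName B) : BName B := spow (spow (sunion (upair K L)))

theorem mem_prodN {K L : BName B} {h : Ult B} {x y : Mdl h} (hx : E h x (Mdl.mk h K))
    (hy : E h y (Mdl.mk h L)) : E h (pr h x y) (Mdl.mk h (prodN K L)) := by
  have hx' : E h x (Mdl.mk h (sunion (upair K L))) :=
    (E_sunion _ _ _).2 ⟨_, (E_upair _ _ _ _).2 (Or.inl rfl), hx⟩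
  have hy' : E h y (Mdl.mk h (sunion (upair K L))) :=
    (E_sunion _ _ _).2 ⟨_, (E_upair _ _ _ _).2 (Or.inr rfl), hy⟩
  refine subset_mem_spow _ _ _ fun s hs => subset_mem_spow _ _ _ fun t ht => ?_
  unfold pr at hs
  rw [E_up] at hs
  rcases hs with rfl | rfl
  · rw [E_up, or_self] at ht
    rw [ht]; exact hx'
  · rw [E_up] at ht
    rcases ht with rfl | rfl
    · exact hx'
    · exact hy'

theorem fun_mem_spow {K L : BName B} {h : Ult B} {f a : Mdl h} (hf : IsFun (E h) f a (Mdl.mk h L))
    (ha : ∀ z, E h z a → E h z (Mdl.mk h K)) : E h f (Mdl.mk h (spow (prodN K L))) := by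
  refine subset_mem_spow _ _ _ fun p hp => ?_
  obtain ⟨x, y, hx, hy, hxy⟩ := hf.1 p hp
  rw [isPair_iff] at hxy
  subst hxy
  exact mem_prodN (ha _ hx) hy

theorem exists_moves (K L : BName B) : ∃ F : BName B, ∀ h : Ult B,
    IsMoves (E h) (Mdl.mk h K) (Mdl.mk h L) (Mdl.mk h F) := by
  obtain ⟨F, hF⟩ := separation_name (H := fun h : Ult B => h)
    (D := fun h z => IsFun (E h) z (Mdl.mk h K) (Mdl.mk h L))
    (bp_isFun BTerm.id (BTerm.const _) (BTerm.const _)) (spow (prodN K L))
  refine ⟨F, fun h g => ?_⟩
  rw [hF h g]
  exact ⟨fun H => H.2, fun H => ⟨fun_mem_spow H (fun z hz => hz), H⟩⟩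

theorem exists_seqSet (F : BName B) : ∃ S : BName B, ∀ h : Ult B,
    IsSeqSet (E h) (Mdl.mk h (omN B)) (Mdl.mk h F) (Mdl.mk h S) := by
  obtain ⟨S, hS⟩ := separation_name (H := fun h : Ult B => h)
    (D := fun h z => ∃ n, E h n (Mdl.mk h (omN B)) ∧ IsFun (E h) z n (Mdl.mk h F))
    (by
      repeat' first
        | exact BMap.id
        | apply BMap.fst
        | apply BMap.snd
        | exact BTerm.const _
        | apply bterm_opair
        | apply BTerm.of
        | apply BPred.mem
        | apply BPred.eq
        | apply bp_has2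
        | apply bp_has3
        | apply bp_isTuple3
        | apply bp_eq_pr
        | apply bp_isPair
        | apply bp_isUPair
        | apply bp_isFun
        | apply bp_injects
        | apply BPred.not
        | apply BPred.and
        | apply BPred.or
        | apply BPred.iff
        | apply BPred.imp
        | refine BPred.ex ?_
        | refine BPred.all ?_
        | exact BPred.const _) (spow (prodN (omN B) F))
  refine ⟨S, fun h g => ?_⟩
  rw [hS h g]
  refine ⟨fun H => H.2, fun H => ⟨?_, H⟩⟩
  obtain ⟨n, hn, hg⟩ := H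
  exact fun_mem_spow hg fun z hz => (isOrd_vNset h).1 n z hn hz

/-! ### The even numbers -/

/-- The name of the set of the even numbers. -/
noncomputable def evN (B : Type) [CompleteBooleanAlgebra B] : BName B :=
  BName.mk {n : ℕ // Even n} (fun n => vN n.1) (fun _ => ⊤)

theorem E_evN {h : Ult B} {k : ℕ} : E h (Mdl.mk h (vN k)) (Mdl.mk h (evN B)) ↔ Even k := by
  constructor
  · intro H
    refine forall_full (P := fun h z => z = Mdl.mk h (vN k) → Even k) _ ?_ ⊤ ?_ h h.top' _ H rfl
    · exact BPred.imp (BPred.eq BTerm.id (BTerm.const _)) (BPred.const _)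
    · intro h _ n hn
      rw [← vN_inj.1 hn]
      exact n.2
  · intro H
    exact E_of_full (fun n : {n : ℕ // Even n} => (vN n.1 : BName B)) h ⟨k, H⟩

theorem isEvens (h : Ult B) : IsEvens (E h) (Mdl.mk h (omN B)) (Mdl.mk h (evN B)) := by
  refine ⟨?_, ?_, ?_⟩
  · refine forall_full (P := fun h z => E h z (Mdl.mk h (omN B))) _ ?_ ⊤ ?_ h h.top'
    · exact BPred.mem BTerm.id (BTerm.const _)
    · intro h _ n
      exact E_vN_vNset _
  · intro z hz
    rw [Ints.eq_of_isEmp hz (isEmp_vN_zero h), E_evN]
    exact Even.zero
  · intro n n' hn hn'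
    refine forall_full (P := fun h n => ∀ n', IsSucc (E h) n' n →
      (E h n' (Mdl.mk h (evN B)) ↔ ¬ E h n (Mdl.mk h (evN B)))) _ ?_ ⊤ ?_ h h.top' n hn n' hn'
    · repeat' first
        | exact BMap.id
        | apply BMap.fst
        | apply BMap.snd
        | exact BTerm.const _
        | apply bterm_opair
        | apply BTerm.of
        | apply BPred.mem
        | apply BPred.eq
        | apply bp_has2
        | apply bp_has3
        | apply bp_isTuple3
        | apply bp_eq_pr
        | apply bp_isPair
        | apply bp_isUPair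
        | apply bp_isFun
        | apply bp_injects
        | apply bp_isSucc
        | apply BPred.not
        | apply BPred.and
        | apply BPred.or
        | apply BPred.iff
        | apply BPred.imp
        | refine BPred.ex ?_
        | refine BPred.all ?_
        | exact BPred.const _
    · intro h _ k n' hn'
      rw [Ints.eq_of_isSucc hn' (fun z => E_vN_succ k z), E_evN, E_evN, Nat.even_add_one]

/-! ### The payoff set -/

section

variable {Θ : Type} [LinearOrder Θ] [WellFoundedLT Θ]

/-- All terms of `x` are less than `δ`, and `x` is cofinal in `δ`. -/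
def Cof {M : Type*} (E : M → M → Prop) (x δ : M) : Prop :=
  (∀ n v, Has E x [n, v] → E v δ) ∧
    ∀ β, E β δ → ∃ n v, Has E x [n, v] ∧ (E β v ∨ β = v)

variable (B Θ) in
/-- The name of the set of the ordinals of uncountable cofinality in the ground model. -/
noncomputable def bN : BName B := BName.mk {δ : Θ // Good δ} (fun δ => vN δ.1) (fun _ => ⊤)

variable (B Θ) in
theorem exists_payoff : ∃ A : BName B, ∀ (h : Ult B) x, E h x (Mdl.mk h A) ↔
    IsFun (E h) x (Mdl.mk h (omN B)) (Mdl.mk h (vNset B Θ)) ∧
      ∃ δ, E h δ (Mdl.mk h (bN B Θ)) ∧ Cof (E h) x δ := by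
  obtain ⟨A, hA⟩ := separation_name (H := fun h : Ult B => h)
    (D := fun h x => IsFun (E h) x (Mdl.mk h (omN B)) (Mdl.mk h (vNset B Θ)) ∧
      ∃ δ, E h δ (Mdl.mk h (bN B Θ)) ∧ Cof (E h) x δ)
    (by
      unfold Cof
      repeat' first
        | exact BMap.id
        | apply BMap.fst
        | apply BMap.snd
        | exact BTerm.const _
        | apply bterm_opair
        | apply BTerm.of
        | apply BPred.mem
        | apply BPred.eq
        | apply bp_has2
        | apply bp_has3
        | apply bp_isTuple3
        | apply bp_eq_pr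
        | apply bp_isPair
        | apply bp_isUPair
        | apply bp_isFun
        | apply bp_injects
        | apply BPred.not
        | apply BPred.and
        | apply BPred.or
        | apply BPred.iff
        | apply BPred.imp
        | refine BPred.ex ?_
        | refine BPred.all ?_
        | exact BPred.const _) (spow (prodN (omN B) (vNset B Θ)))
  refine ⟨A, fun h x => ?_⟩
  rw [hA h x]
  exact ⟨fun H => H.2, fun H => ⟨fun_mem_spow H.1 (fun z hz => hz), H⟩⟩

end

end Pool.Agent.MPe811a4
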