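import Pool.Agent.MP_e811a4_lc.E

/-! Player TWO has no winning strategy. -/

set_option linter.unusedVariables false
set_option linter.unusedSectionVars false
set_option linter.unreachableTactic false
set_option linter.unusedTactic false

namespace Pool.Agent.MPe811a4

open BVM BName SetModel MP63050e MP7e7dde

variable {B : Type} [CompleteBooleanAlgebra B]

/-- The name of the position after the moves with parameters `t`. -/
noncomputable def pos {X : Type} (mv : List X → BName B → X → BName B) : List X → BName B
  | [] => emp B
  | ξ :: t => adj (pos mv t) (opair (vN t.length) (mv t (pos mv t) ξ))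

variable {Ω Θ : Type} [LinearOrder Ω] [WellFoundedLT Ω] [LinearOrder Θ] [WellFoundedLT Θ]
  {em : Cnd Ω → B} {ι : Type} {e : ι → BName B} {c : ι → B}

/-- The name of the constant function. -/
noncomputable def cst (e : ι → BName B) (c : ι → B) (ξ : Θ) : BName B :=
  hN e c (fun _ => vN ξ)

theorem has_cst (hs : Sep e c) {ξ : Θ} {h : Ult B} {r : Mdl h}
    (hr : E h r (Mdl.mk h (BName.mk ι e c))) {v : Mdl h} :
    Has (E h) (Mdl.mk h (cst e c ξ)) [r, v] ↔ v = Mdl.mk h (vN ξ) := by
  refine forall_mem' (P := fun h r => ∀ v, Has (E h) (Mdl.mk h (cst e c ξ)) [r, v] ↔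
    v = Mdl.mk h (vN ξ)) e c ?_ ?_ h r hr v
  · repeat' first
      | exact BMap.id
      | apply BMap.fst
      | apply BMap.snd
      | exact BTerm.const _
      | apply bterm_opair
      | apply BTerm.of
      | apply BPred.mem
      | apply BPred.eq
      | apply bp_has2
      | apply bp_has3
      | apply bp_isTuple3
      | apply bp_eq_pr
      | apply bp_isPair
      | apply bp_isUPair
      | apply bp_isFun
      | apply bp_injects
      | apply BPred.not
      | apply BPred.and
      | apply BPred.or
      | apply BPred.iff
      | apply BPred.imp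
      | refine BPred.ex ?_
      | refine BPred.all ?_
      | exact BPred.const _
  · intro h i hi v
    exact has_hN hs hi

theorem claim1 (P : Pair Ω Θ) (hem : DenseEmb em) (hs : Sep e c) {F S : BName B}
    (hF : ∀ h, IsMoves (E h) (Mdl.mk h (BName.mk ι e c)) (Mdl.mk h (vNset B Θ)) (Mdl.mk h F))
    (hS : ∀ h, IsSeqSet (E h) (Mdl.mk h (omN B)) (Mdl.mk h F) (Mdl.mk h S))
    {τ r : BName B} {Q : Ult B → Prop} (hQ : Clop Q)
    (hτ : ∀ h, Q h → IsFun (E h) (Mdl.mk h τ) (Mdl.mk h S) (Mdl.mk h F))
    (hr : ∀ h, Q h → E h (Mdl.mk h r) (Mdl.mk h (BName.mk ι e c))) :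
    ∃ f x : BName B, ∀ h, Q h → IsFun (E h) (Mdl.mk h f) (Mdl.mk h (omN B)) (Mdl.mk h F) ∧
      FollowsTwo (E h) (Mdl.mk h (omN B)) (Mdl.mk h (evN B)) (Mdl.mk h τ) (Mdl.mk h f) ∧
      IsBoard (E h) (Mdl.mk h (omN B)) (Mdl.mk h (vNset B Θ)) (Mdl.mk h f) (Mdl.mk h r)
        (Mdl.mk h x) ∧ ∃ δ, E h δ (Mdl.mk h (bN B Θ)) ∧ Cof (E h) (Mdl.mk h x) δ := by
  classical
  have hΩ : Nonempty Ω := P.nonempty
  let mv : List Θ → BName B → Θ → BName B := fun t q ξ =>
    if Even t.length then cst e c ξ else vl τ q
  let gT : List Θ → Θ → BName B := fun t ξ => mv t (pos mv t) ξ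
  have hcst : ∀ (h : Ult B) (ξ : Θ), E h (Mdl.mk h (cst e c ξ)) (Mdl.mk h F) := fun h ξ =>
    (hF h _).2 (isFun_hN hs clop_true (fun h _ i _ => E_vN_vNset ξ) h trivial)
  have hrep : ∀ h, Q h → ∀ t : List Θ,
      IsFun (E h) (Mdl.mk h (pos mv t)) (Mdl.mk h (vN t.length)) (Mdl.mk h F) →
      Has (E h) (Mdl.mk h τ) [Mdl.mk h (pos mv t), Mdl.mk h (vl τ (pos mv t))] ∧
        E h (Mdl.mk h (vl τ (pos mv t))) (Mdl.mk h F) := by
    intro h hq t ht
    exact has_vl_of (hτ h hq) ((hS h _).2 ⟨_, E_vN_vNset _, ht⟩)
  have hseq : ∀ (t : List Θ) h, Q h →
      IsFun (E h) (Mdl.mk h (pos mv t)) (Mdl.mk h (vN t.length)) (Mdl.mk h F) ∧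
        ∀ ξ, E h (Mdl.mk h (gT t ξ)) (Mdl.mk h F) := by
    intro t h hq
    have hstep : ∀ t : List Θ,
        IsFun (E h) (Mdl.mk h (pos mv t)) (Mdl.mk h (vN t.length)) (Mdl.mk h F) →
        ∀ ξ, E h (Mdl.mk h (gT t ξ)) (Mdl.mk h F) := by
      intro t ht ξ
      change E h (Mdl.mk h (if Even t.length then cst e c ξ else vl τ (pos mv t))) (Mdl.mk h F)
      split_ifs
      · exact hcst h ξ
      · exact (hrep h hq t ht).2
    have hpos : IsFun (E h) (Mdl.mk h (pos mv t)) (Mdl.mk h (vN t.length)) (Mdl.mk h F) := by
      induction t with
      | nil => exact isFun_emp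
      | cons ξ t ih => exact isFun_adj ih (hstep t ih ξ)
    exact ⟨hpos, hstep t hpos⟩
  -- bounds
  have hval : ∀ (g : BName B) h, Q h → E h (Mdl.mk h g) (Mdl.mk h F) →
      Has (E h) (Mdl.mk h g) [Mdl.mk h r, Mdl.mk h (vl g r)] ∧
        E h (Mdl.mk h (vl g r)) (Mdl.mk h (vNset B Θ)) := fun g h hq hg =>
    has_vl_of ((hF h _).1 hg) (hr h hq)
  choose G hG using fun t : List Θ => exists_bound P hem (z := vl (vl τ (pos mv t)) r) hQ
    (fun h hq => (hval _ h hq (hrep h hq t (hseq t h hq).1).2).2)
  obtain ⟨δ, hδ1, hδ2, u, hu1, hu2⟩ := P.exists_closed G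
  let q : List Ω → BName B := fun l => pos mv (l.map u)
  let y : List Ω → Ω → BName B := fun l o => gT (l.map u) (u o)
  have hq0 : q [] = emp B := rfl
  have hq1 : ∀ o l, q (o :: l) = adj (q l) (opair (vN l.length) (y l o)) := by
    intro o l
    change adj (pos mv (l.map u)) (opair (vN (l.map u).length) _) = _
    rw [List.length_map]
  have hyF : ∀ h, Q h → ∀ l o, E h (Mdl.mk h (y l o)) (Mdl.mk h F) := fun h hq l o =>
    (hseq (l.map u) h hq).2 (u o)
  have hyodd : ∀ l o, ¬ Even l.length → y l o = vl τ (q l) := by
    intro l o hl
    change (if Even (l.map u).length then cst e c (u o) else vl τ (pos mv (l.map u))) = _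
    rw [List.length_map, if_neg hl]
  have hyeven : ∀ l o, Even l.length → y l o = cst e c (u o) := by
    intro l o hl
    change (if Even (l.map u).length then cst e c (u o) else vl τ (pos mv (l.map u))) = _
    rw [List.length_map, if_pos hl]
  have hvcst : ∀ h, Q h → ∀ l o, Even l.length →
      Mdl.mk h (vl (y l o) r) = Mdl.mk h (vN (u o)) := by
    intro h hq l o hl
    rw [hyeven l o hl]
    exact (has_cst hs (hr h hq)).1 (hval _ h hq (hcst h (u o))).1
  have hvlt : ∀ h, Q h → ∀ l o, E h (Mdl.mk h (vl (y l o) r)) (Mdl.mk h (vN δ)) := by
    intro h hq l o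
    by_cases hl : Even l.length
    · rw [hvcst h hq l o hl, E_vN_vN]
      exact hu1 o
    · rw [hyodd l o hl]
      refine isTrans_vN h δ _ _ ?_ (hG (l.map u) h hq)
      rw [E_vN_vN]
      refine hδ1 _ fun ξ hξ => ?_
      rw [List.mem_map] at hξ
      obtain ⟨o', -, rfl⟩ := hξ
      exact hu1 o'
  have hvF := isFun_gN hem (y := fun l o => vl (y l o) r) hQ (F := vNset B Θ)
    (fun h hq l o _ => (hval _ h hq (hyF h hq l o)).2)
  have hfF := isFun_gN hem (y := y) hQ (F := F) (fun h hq l o _ => hyF h hq l o)
  refine ⟨gN em y, gN em (fun l o => vl (y l o) r), fun h hq => ⟨hfF h hq, ?_,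
    ⟨hvF h hq, ?_⟩, Mdl.mk h (vN δ), ?_, ?_, ?_⟩⟩
  · -- TWO follows `τ`
    intro n s g hn hnX hs hg
    refine forall_mem (P := fun h n => ¬ E h n (Mdl.mk h (evN B)) → ∀ s g,
      IsRes (E h) s (Mdl.mk h (gN em y)) n → Has (E h) (Mdl.mk h (gN em y)) [n, g] →
      Has (E h) (Mdl.mk h τ) [s, g]) (vN : ℕ → BName B) (fun _ => ⊤) ?_ hQ ?_ h hq n hn
      hnX s g hs hg
    rotate_left
    · intro h hq k _
      refine of_level hem (k + 1) hQ (R := fun h => ¬ E h (Mdl.mk h (vN k)) (Mdl.mk h (evN B)) →
        ∀ s g, IsRes (E h) s (Mdl.mk h (gN em y)) (Mdl.mk h (vN k)) →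
        Has (E h) (Mdl.mk h (gN em y)) [Mdl.mk h (vN k), g] → Has (E h) (Mdl.mk h τ) [s, g])
        ?_ ?_ h hq
      · refine BPred.clop (P := fun h n => ¬ E h (Mdl.mk h n) (Mdl.mk h (evN B)) →
          ∀ s g, IsRes (E h) s (Mdl.mk h (gN em y)) (Mdl.mk h n) →
          Has (E h) (Mdl.mk h (gN em y)) [Mdl.mk h n, g] → Has (E h) (Mdl.mk h τ) [s, g]) ?_
          (vN k : BName B)
        unfold IsRes
        repeat' first
          | exact BMap.id
          | apply BMap.fst
          | apply BMap.snd
          | exact BTerm.const _
          | apply bterm_opair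
          | apply BTerm.of
          | apply BPred.mem
          | apply BPred.eq
          | apply bp_has2
          | apply bp_has3
          | apply bp_isTuple3
          | apply bp_eq_pr
          | apply bp_isPair
          | apply bp_isUPair
          | apply bp_isFun
          | apply bp_injects
          | apply BPred.not
          | apply BPred.and
          | apply BPred.or
          | apply BPred.iff
          | apply BPred.imp
          | refine BPred.ex ?_
          | refine BPred.all ?_
          | exact BPred.const _
      · intro l hl h hq hh hk s g hs hg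
        cases l with
        | nil => simp at hl
        | cons o l =>
          have h1 : l.length = k := by simpa using hl
          subst h1
          rw [E_evN] at hk
          rw [has_gN hem hh] at hg
          subst hg
          rw [isRes_uniq hs (isRes_gN hem hq0 hq1 l (V_tail hem hh)), hyodd l o hk]
          exact (hrep h hq _ (hseq _ h hq).1).1
    · unfold IsRes
      repeat' first
        | exact BMap.id
        | apply BMap.fst
        | apply BMap.snd
        | exact BTerm.const _
        | apply bterm_opair
        | apply BTerm.of
        | apply BPred.mem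
        | apply BPred.eq
        | apply bp_has2
        | apply bp_has3
        | apply bp_isTuple3
        | apply bp_eq_pr
        | apply bp_isPair
        | apply bp_isUPair
        | apply bp_isFun
        | apply bp_injects
        | apply BPred.not
        | apply BPred.and
        | apply BPred.or
        | apply BPred.iff
        | apply BPred.imp
        | refine BPred.ex ?_
        | refine BPred.all ?_
        | exact BPred.const _
  · -- the sequence on the board `r`
    intro n g v hn hg
    refine forall_mem (P := fun h n => ∀ g v, Has (E h) (Mdl.mk h (gN em y)) [n, g] →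
      Has (E h) g [Mdl.mk h r, v] → Has (E h) (Mdl.mk h (gN em (fun l o => vl (y l o) r))) [n, v])
      (vN : ℕ → BName B) (fun _ => ⊤) ?_ hQ ?_ h hq n (has_mem (hfF h hq) hn).1 g v hn hg
    · repeat' first
        | exact BMap.id
        | apply BMap.fst
        | apply BMap.snd
        | exact BTerm.const _
        | apply bterm_opair
        | apply BTerm.of
        | apply BPred.mem
        | apply BPred.eq
        | apply bp_has2
        | apply bp_has3
        | apply bp_isTuple3
        | apply bp_eq_pr
        | apply bp_isPair
        | apply bp_isUPair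
        | apply bp_isFun
        | apply bp_injects
        | apply BPred.not
        | apply BPred.and
        | apply BPred.or
        | apply BPred.iff
        | apply BPred.imp
        | refine BPred.ex ?_
        | refine BPred.all ?_
        | exact BPred.const _
    · intro h hq k _
      refine of_level hem (k + 1) hQ (R := fun h => ∀ g v,
        Has (E h) (Mdl.mk h (gN em y)) [Mdl.mk h (vN k), g] → Has (E h) g [Mdl.mk h r, v] →
        Has (E h) (Mdl.mk h (gN em (fun l o => vl (y l o) r))) [Mdl.mk h (vN k), v]) ?_ ?_ h hq
      · refine BPred.clop (P := fun h n => ∀ g v,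
          Has (E h) (Mdl.mk h (gN em y)) [Mdl.mk h n, g] → Has (E h) g [Mdl.mk h r, v] →
          Has (E h) (Mdl.mk h (gN em (fun l o => vl (y l o) r))) [Mdl.mk h n, v]) ?_
          (vN k : BName B)
        repeat' first
          | exact BMap.id
          | apply BMap.fst
          | apply BMap.snd
          | exact BTerm.const _
          | apply bterm_opair
          | apply BTerm.of
          | apply BPred.mem
          | apply BPred.eq
          | apply bp_has2
          | apply bp_has3
          | apply bp_isTuple3
          | apply bp_eq_pr
          | apply bp_isPair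
          | apply bp_isUPair
          | apply bp_isFun
          | apply bp_injects
          | apply BPred.not
          | apply BPred.and
          | apply BPred.or
          | apply BPred.iff
          | apply BPred.imp
          | refine BPred.ex ?_
          | refine BPred.all ?_
          | exact BPred.const _
      · intro l hl h hq hh g v hn hg
        cases l with
        | nil => simp at hl
        | cons o l =>
          have h1 : l.length = k := by simpa using hl
          subst h1
          rw [has_gN hem hh] at hn
          subst hn
          rw [has_gN hem hh]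
          exact has_uniq ((hF h _).1 (hyF h hq l o)) hg (hval _ h hq (hyF h hq l o)).1
  · exact E_of_full (fun δ : {δ : Θ // Good δ} => (vN δ.1 : BName B)) h ⟨δ, hδ2⟩
  · -- all terms are less than `δ`
    intro n v hn
    refine forall_mem (P := fun h n => ∀ v,
      Has (E h) (Mdl.mk h (gN em (fun l o => vl (y l o) r))) [n, v] → E h v (Mdl.mk h (vN δ)))
      (vN : ℕ → BName B) (fun _ => ⊤) ?_ hQ ?_ h hq n (has_mem (hvF h hq) hn).1 v hn
    · repeat' first
        | exact BMap.id
        | apply BMap.fst
        | apply BMap.snd
        | exact BTerm.const _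
        | apply bterm_opair
        | apply BTerm.of
        | apply BPred.mem
        | apply BPred.eq
        | apply bp_has2
        | apply bp_has3
        | apply bp_isTuple3
        | apply bp_eq_pr
        | apply bp_isPair
        | apply bp_isUPair
        | apply bp_isFun
        | apply bp_injects
        | apply BPred.not
        | apply BPred.and
        | apply BPred.or
        | apply BPred.iff
        | apply BPred.imp
        | refine BPred.ex ?_
        | refine BPred.all ?_
        | exact BPred.const _
    · intro h hq k _
      refine of_level hem (k + 1) hQ (R := fun h => ∀ v,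
        Has (E h) (Mdl.mk h (gN em (fun l o => vl (y l o) r))) [Mdl.mk h (vN k), v] →
        E h v (Mdl.mk h (vN δ))) ?_ ?_ h hq
      · refine BPred.clop (P := fun h n => ∀ v,
          Has (E h) (Mdl.mk h (gN em (fun l o => vl (y l o) r))) [Mdl.mk h n, v] →
          E h v (Mdl.mk h (vN δ))) ?_ (vN k : BName B)
        repeat' first
          | exact BMap.id
          | apply BMap.fst
          | apply BMap.snd
          | exact BTerm.const _
          | apply bterm_opair
          | apply BTerm.of
          | apply BPred.mem
          | apply BPred.eq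
          | apply bp_has2
          | apply bp_has3
          | apply bp_isTuple3
          | apply bp_eq_pr
          | apply bp_isPair
          | apply bp_isUPair
          | apply bp_isFun
          | apply bp_injects
          | apply BPred.not
          | apply BPred.and
          | apply BPred.or
          | apply BPred.iff
          | apply BPred.imp
          | refine BPred.ex ?_
          | refine BPred.all ?_
          | exact BPred.const _
      · intro l hl h hq hh v hv
        cases l with
        | nil => simp at hl
        | cons o l =>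
          have h1 : l.length = k := by simpa using hl
          subst h1
          rw [has_gN hem hh] at hv
          subst hv
          exact hvlt h hq l o
  · -- cofinality
    rw [vN_eq]
    refine forall_mem (P := fun h β => ∃ n v,
      Has (E h) (Mdl.mk h (gN em (fun l o => vl (y l o) r))) [n, v] ∧ (E h β v ∨ β = v))
      (fun b : {b : Θ // b < δ} => (vN b.1 : BName B)) (fun _ => ⊤) ?_ hQ ?_ h hq
    · repeat' first
        | exact BMap.id
        | apply BMap.fst
        | apply BMap.snd
        | exact BTerm.const _
        | apply bterm_opair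
        | apply BTerm.of
        | apply BPred.mem
        | apply BPred.eq
        | apply bp_has2
        | apply bp_has3
        | apply bp_isTuple3
        | apply bp_eq_pr
        | apply bp_isPair
        | apply bp_isUPair
        | apply bp_isFun
        | apply bp_injects
        | apply BPred.not
        | apply BPred.and
        | apply BPred.or
        | apply BPred.iff
        | apply BPred.imp
        | refine BPred.ex ?_
        | refine BPred.all ?_
        | exact BPred.const _
    · intro h hq b _
      obtain ⟨o, ho⟩ := hu2 b.1 b.2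
      refine imp_of_fo hem hQ (R := fun h => ∃ n v,
        Has (E h) (Mdl.mk h (gN em (fun l o => vl (y l o) r))) [n, v] ∧
          (E h (Mdl.mk h (vN b.1)) v ∨ Mdl.mk h (vN b.1) = v)) ?_ ?_ h hq
      · refine BPred.clop (P := fun h b => ∃ n v,
          Has (E h) (Mdl.mk h (gN em (fun l o => vl (y l o) r))) [n, v] ∧
          (E h (Mdl.mk h b) v ∨ Mdl.mk h b = v)) ?_ (vN b.1 : BName B)
        repeat' first
          | exact BMap.id
          | apply BMap.fst
          | apply BMap.snd
          | exact BTerm.const _
          | apply bterm_opair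
          | apply BTerm.of
          | apply BPred.mem
          | apply BPred.eq
          | apply bp_has2
          | apply bp_has3
          | apply bp_isTuple3
          | apply bp_eq_pr
          | apply bp_isPair
          | apply bp_isUPair
          | apply bp_isFun
          | apply bp_injects
          | apply BPred.not
          | apply BPred.and
          | apply BPred.or
          | apply BPred.iff
          | apply BPred.imp
          | refine BPred.ex ?_
          | refine BPred.all ?_
          | exact BPred.const _
      · intro p hp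
        obtain ⟨l, hl, hle⟩ : ∃ l : List Ω, Even l.length ∧ (⟨o :: l⟩ : Cnd Ω) ≤ p := by
          by_cases hpl : Even p.l.length
          · exact ⟨p.l, hpl, List.suffix_cons _ _⟩
          · refine ⟨o :: p.l, ?_, (List.suffix_cons _ _).trans (List.suffix_cons _ _)⟩
            rw [List.length_cons, Nat.even_add_one]
            exact hpl
        refine ⟨⟨o :: l⟩, hle, fun h hh => ?_⟩
        have hq : Q h := hp h (h.mono (hem.mono _ _ hle) hh)
        refine ⟨Mdl.mk h (vN l.length), Mdl.mk h (vl (y l o) r), (has_gN hem hh).2 rfl,
          Or.inr ?_⟩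
        rw [hvcst h hq l o hl, ho]

end Pool.Agent.MPe811a4
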