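import Pool.Agent.MP_e811a4_lc.E

/-! Player ONE has no winning strategy. -/

set_option linter.unusedVariables false
set_option linter.unusedSectionVars false
set_option linter.unreachableTactic false
set_option linter.unusedTactic false

namespace Pool.Agent.MPe811a4

open BVM BName SetModel MP63050e MP7e7dde

variable {B : Type} [CompleteBooleanAlgebra B]

variable {Ω Θ : Type} [LinearOrder Ω] [WellFoundedLT Ω] [LinearOrder Θ] [WellFoundedLT Θ]
  {em : Cnd Ω → B} {ι : Type} {e : ι → BName B} {c : ι → B}

theorem claim2 (P : Pair Ω Θ) (hem : DenseEmb em) (hs : Sep e c) {F S : BName B}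
    (hF : ∀ h, IsMoves (E h) (Mdl.mk h (BName.mk ι e c)) (Mdl.mk h (vNset B Θ)) (Mdl.mk h F))
    (hS : ∀ h, IsSeqSet (E h) (Mdl.mk h (omN B)) (Mdl.mk h F) (Mdl.mk h S))
    {σ : BName B} {Q : Ult B → Prop} (hQ : Clop Q)
    (hσ : ∀ h, Q h → IsFun (E h) (Mdl.mk h σ) (Mdl.mk h S) (Mdl.mk h F)) :
    ∃ f : BName B, ∀ h, Q h → IsFun (E h) (Mdl.mk h f) (Mdl.mk h (omN B)) (Mdl.mk h F) ∧
      FollowsOne (E h) (Mdl.mk h (evN B)) (Mdl.mk h σ) (Mdl.mk h f) ∧
      ∀ r x, E h r (Mdl.mk h (BName.mk ι e c)) →
        IsBoard (E h) (Mdl.mk h (omN B)) (Mdl.mk h (vNset B Θ)) (Mdl.mk h f) r x →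
        ¬ ∃ δ, E h δ (Mdl.mk h (bN B Θ)) ∧ Cof (E h) x δ := by
  classical
  have hΩ : Nonempty Ω := P.nonempty
  -- bounds
  have hbd : ∀ (g : BName B) (i : ι), ∃ b : Θ, ∀ h : Ult B, (h.V (c i) ∧
      IsFun (E h) (Mdl.mk h g) (Mdl.mk h (BName.mk ι e c)) (Mdl.mk h (vNset B Θ))) →
      E h (Mdl.mk h (vl g (e i))) (Mdl.mk h (vN b)) := by
    intro g i
    refine exists_bound P hem (Clop.and (clop_V (c i)) (clop_isFun _ _ _)) fun h hh => ?_
    exact (has_vl_of hh.2 (V_coe hh.1)).2
  choose bd hbd using hbd
  obtain ⟨st, st0, st00, st1, st2⟩ : ∃ st : ℕ → BName B × BName B, (st 0).1 = emp B ∧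
      (st 0).2 = vl σ (st 0).1 ∧
      (∀ m, (st (m + 1)).1 = adj (st m).1 (opair (vN m) (st m).2)) ∧
      ∀ m, (st (m + 1)).2 = if Even (m + 1) then vl σ (st (m + 1)).1 else
        hN e c (fun i => vN (bd (st m).2 i)) :=
    ⟨fun m => Nat.rec (emp B, vl σ (emp B))
      (fun m p => (adj p.1 (opair (vN m) p.2), if Even (m + 1) then
        vl σ (adj p.1 (opair (vN m) p.2)) else hN e c (fun i => vN (bd p.2 i)))) m,
      rfl, rfl, fun m => rfl, fun m => rfl⟩
  have steven : ∀ m, Even m → (st m).2 = vl σ (st m).1 := by
    intro m hm
    cases m with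
    | zero => exact st00
    | succ m => rw [st2, if_pos hm]
  have hodd : ∀ m, Even m → (st (m + 1)).2 = hN e c (fun i => vN (bd (st m).2 i)) := by
    intro m hm
    rw [st2, if_neg]
    rw [Nat.even_add_one]
    exact not_not.2 hm
  have hrep : ∀ h, Q h → ∀ m : ℕ,
      IsFun (E h) (Mdl.mk h (st m).1) (Mdl.mk h (vN m)) (Mdl.mk h F) →
      Has (E h) (Mdl.mk h σ) [Mdl.mk h (st m).1, Mdl.mk h (vl σ (st m).1)] ∧
        E h (Mdl.mk h (vl σ (st m).1)) (Mdl.mk h F) := by
    intro h hq m hm
    exact has_vl_of (hσ h hq) ((hS h _).2 ⟨_, E_vN_vNset _, hm⟩)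
  have hhN : ∀ (h : Ult B) (H : ι → Θ), E h (Mdl.mk h (hN e c (fun i => vN (H i))))
      (Mdl.mk h F) := fun h H =>
    (hF h _).2 (isFun_hN hs clop_true (fun h _ i _ => E_vN_vNset _) h trivial)
  have hseq : ∀ (m : ℕ) h, Q h →
      IsFun (E h) (Mdl.mk h (st m).1) (Mdl.mk h (vN m)) (Mdl.mk h F) ∧
        E h (Mdl.mk h (st m).2) (Mdl.mk h F) := by
    intro m h hq
    induction m with
    | zero =>
      have h0 : IsFun (E h) (Mdl.mk h (st 0).1) (Mdl.mk h (vN 0)) (Mdl.mk h F) := by
        rw [st0]; exact isFun_emp
      refine ⟨h0, ?_⟩
      rw [st00]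
      exact (hrep h hq 0 h0).2
    | succ m ih =>
      have h1 : IsFun (E h) (Mdl.mk h (st (m + 1)).1) (Mdl.mk h (vN (m + 1))) (Mdl.mk h F) := by
        rw [st1]; exact isFun_adj ih.1 ih.2
      refine ⟨h1, ?_⟩
      by_cases hm : Even (m + 1)
      · rw [steven _ hm]
        exact (hrep h hq (m + 1) h1).2
      · rw [hodd m (by
          rw [Nat.even_add_one, not_not] at hm
          exact hm)]
        exact hhN h _
  let q : List Ω → BName B := fun l => (st l.length).1
  let y : List Ω → Ω → BName B := fun l _ => (st l.length).2
  have hq0 : q [] = emp B := st0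
  have hq1 : ∀ o l, q (o :: l) = adj (q l) (opair (vN l.length) (y l o)) := fun o l => st1 _
  have hyF : ∀ h, Q h → ∀ l o, E h (Mdl.mk h (y l o)) (Mdl.mk h F) := fun h hq l o =>
    (hseq _ h hq).2
  have hfF := isFun_gN hem (y := y) hQ (F := F) (fun h hq l o _ => hyF h hq l o)
  have hfk : ∀ (h : Ult B) (k : ℕ), Has (E h) (Mdl.mk h (gN em y))
      [Mdl.mk h (vN k), Mdl.mk h (st k).2] := by
    intro h k
    refine forall_level hem (k + 1) (R := fun h => Has (E h) (Mdl.mk h (gN em y))
      [Mdl.mk h (vN k), Mdl.mk h (st k).2]) ?_ ?_ h
    · refine BPred.clop (P := fun h n => Has (E h) (Mdl.mk h (gN em y))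
        [Mdl.mk h n, Mdl.mk h (st k).2]) ?_ (vN k : BName B)
      repeat' first
        | exact BMap.id
        | apply BMap.fst
        | apply BMap.snd
        | exact BTerm.const _
        | apply bterm_opair
        | apply BTerm.of
        | apply BPred.mem
        | apply BPred.eq
        | apply bp_has2
        | apply bp_has3
        | apply bp_isTuple3
        | apply bp_eq_pr
        | apply bp_isPair
        | apply bp_isUPair
        | apply bp_isFun
        | apply bp_injects
        | apply BPred.not
        | apply BPred.and
        | apply BPred.or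
        | apply BPred.iff
        | apply BPred.imp
        | refine BPred.ex ?_
        | refine BPred.all ?_
        | exact BPred.const _
    · intro l hl h hh
      cases l with
      | nil => simp at hl
      | cons o l =>
        have h1 : l.length = k := by simpa using hl
        subst h1
        exact (has_gN hem hh).2 rfl
  refine ⟨gN em y, fun h hq => ⟨hfF h hq, ?_, ?_⟩⟩
  · -- ONE follows `σ`
    intro n s g hn hs hg
    refine forall_mem (P := fun h n => ∀ s g,
      IsRes (E h) s (Mdl.mk h (gN em y)) n → Has (E h) (Mdl.mk h (gN em y)) [n, g] →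
      Has (E h) (Mdl.mk h σ) [s, g]) (fun n : {n : ℕ // Even n} => (vN n.1 : BName B))
      (fun _ => ⊤) ?_ hQ ?_ h hq n hn s g hs hg
    · unfold IsRes
      repeat' first
        | exact BMap.id
        | apply BMap.fst
        | apply BMap.snd
        | exact BTerm.const _
        | apply bterm_opair
        | apply BTerm.of
        | apply BPred.mem
        | apply BPred.eq
        | apply bp_has2
        | apply bp_has3
        | apply bp_isTuple3
        | apply bp_eq_pr
        | apply bp_isPair
        | apply bp_isUPair
        | apply bp_isFun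
        | apply bp_injects
        | apply BPred.not
        | apply BPred.and
        | apply BPred.or
        | apply BPred.iff
        | apply BPred.imp
        | refine BPred.ex ?_
        | refine BPred.all ?_
        | exact BPred.const _
    · intro h hq k _
      refine of_level hem k.1 hQ (R := fun h =>
        ∀ s g, IsRes (E h) s (Mdl.mk h (gN em y)) (Mdl.mk h (vN k.1)) →
        Has (E h) (Mdl.mk h (gN em y)) [Mdl.mk h (vN k.1), g] → Has (E h) (Mdl.mk h σ) [s, g])
        ?_ ?_ h hq
      · refine BPred.clop (P := fun h n =>
          ∀ s g, IsRes (E h) s (Mdl.mk h (gN em y)) (Mdl.mk h n) →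
          Has (E h) (Mdl.mk h (gN em y)) [Mdl.mk h n, g] → Has (E h) (Mdl.mk h σ) [s, g]) ?_
          (vN k.1 : BName B)
        unfold IsRes
        repeat' first
          | exact BMap.id
          | apply BMap.fst
          | apply BMap.snd
          | exact BTerm.const _
          | apply bterm_opair
          | apply BTerm.of
          | apply BPred.mem
          | apply BPred.eq
          | apply bp_has2
          | apply bp_has3
          | apply bp_isTuple3
          | apply bp_eq_pr
          | apply bp_isPair
          | apply bp_isUPair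
          | apply bp_isFun
          | apply bp_injects
          | apply BPred.not
          | apply BPred.and
          | apply BPred.or
          | apply BPred.iff
          | apply BPred.imp
          | refine BPred.ex ?_
          | refine BPred.all ?_
          | exact BPred.const _
      · intro l hl h hq hh s g hs hg
        rw [has_uniq (hfF h hq) hg (hfk h k.1)]
        rw [← hl] at hs ⊢
        rw [isRes_uniq hs (isRes_gN hem hq0 hq1 l hh)]
        change Has (E h) (Mdl.mk h σ) [Mdl.mk h (st l.length).1, Mdl.mk h (st l.length).2]
        rw [steven _ (hl ▸ k.2)]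
        exact (hrep h hq _ (hseq _ h hq).1).1
  · -- no board is won by ONE
    intro r x hr
    refine forall_mem (P := fun h r => ∀ x,
      IsBoard (E h) (Mdl.mk h (omN B)) (Mdl.mk h (vNset B Θ)) (Mdl.mk h (gN em y)) r x →
        ¬ ∃ δ, E h δ (Mdl.mk h (bN B Θ)) ∧ Cof (E h) x δ) e c ?_ hQ ?_ h hq r hr x
    · unfold IsBoard Cof
      repeat' first
        | exact BMap.id
        | apply BMap.fst
        | apply BMap.snd
        | exact BTerm.const _
        | apply bterm_opair
        | apply BTerm.of
        | apply BPred.mem
        | apply BPred.eq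
        | apply bp_has2
        | apply bp_has3
        | apply bp_isTuple3
        | apply bp_eq_pr
        | apply bp_isPair
        | apply bp_isUPair
        | apply bp_isFun
        | apply bp_injects
        | apply BPred.not
        | apply BPred.and
        | apply BPred.or
        | apply BPred.iff
        | apply BPred.imp
        | refine BPred.ex ?_
        | refine BPred.all ?_
        | exact BPred.const _
    · intro h hq i hi x hx
      rintro ⟨δ, hδ, hc⟩
      have hQi : Clop (fun h => Q h ∧ h.V (c i)) := Clop.and hQ (clop_V (c i))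
      refine forall_mem (P := fun h δ => ∀ x, IsBoard (E h) (Mdl.mk h (omN B))
        (Mdl.mk h (vNset B Θ)) (Mdl.mk h (gN em y)) (Mdl.mk h (e i)) x →
        Cof (E h) x δ → False) (fun δ : {δ : Θ // Good δ} => (vN δ.1 : BName B)) (fun _ => ⊤)
        ?_ hQi ?_ h ⟨hq, hi⟩ δ hδ x hx hc
      · unfold IsBoard Cof
        repeat' first
          | exact BMap.id
          | apply BMap.fst
          | apply BMap.snd
          | exact BTerm.const _
          | apply bterm_opair
          | apply BTerm.of
          | apply BPred.mem
          | apply BPred.eq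
          | apply bp_has2
          | apply bp_has3
          | apply bp_isTuple3
          | apply bp_eq_pr
          | apply bp_isPair
          | apply bp_isUPair
          | apply bp_isFun
          | apply bp_injects
          | apply BPred.not
          | apply BPred.and
          | apply BPred.or
          | apply BPred.iff
          | apply BPred.imp
          | refine BPred.ex ?_
          | refine BPred.all ?_
          | exact BPred.const _
      · intro h hqi δ _ x hx hc
        obtain ⟨hq, hi⟩ := hqi
        -- the values at the odd places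
        have hv : ∀ k, Even k → bd (st k).2 i < δ.1 := by
          intro k hk
          have h1 := hx.2 _ _ (Mdl.mk h (vN (bd (st k).2 i))) (hfk h (k + 1)) (by
            rw [hodd k hk]
            exact (has_hN hs hi).2 rfl)
          exact E_vN_vN.1 (hc.1 _ _ h1)
        obtain ⟨β, hβ, hβ'⟩ := δ.2 (fun j => bd (st (2 * j)).2 i) (fun j => hv _ (even_two_mul j))
        have hkey : ∀ n v, Has (E h) x [n, v] → E h v (Mdl.mk h (vN β)) := by
          intro n v hn
          refine forall_mem (P := fun h n => ∀ x v, IsBoard (E h) (Mdl.mk h (omN B))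
            (Mdl.mk h (vNset B Θ)) (Mdl.mk h (gN em y)) (Mdl.mk h (e i)) x →
            Has (E h) x [n, v] → E h v (Mdl.mk h (vN β))) (vN : ℕ → BName B) (fun _ => ⊤)
            ?_ hQi ?_ h ⟨hq, hi⟩ n (has_mem hx.1 hn).1 x v hx hn
          · unfold IsBoard
            repeat' first
              | exact BMap.id
              | apply BMap.fst
              | apply BMap.snd
              | exact BTerm.const _
              | apply bterm_opair
              | apply BTerm.of
              | apply BPred.mem
              | apply BPred.eq
              | apply bp_has2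
              | apply bp_has3
              | apply bp_isTuple3
              | apply bp_eq_pr
              | apply bp_isPair
              | apply bp_isUPair
              | apply bp_isFun
              | apply bp_injects
              | apply BPred.not
              | apply BPred.and
              | apply BPred.or
              | apply BPred.iff
              | apply BPred.imp
              | refine BPred.ex ?_
              | refine BPred.all ?_
              | exact BPred.const _
          · intro h hqi k _ x v hx hn
            obtain ⟨hq, hi⟩ := hqi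
            by_cases hk : Even k
            · have h1 := has_vl_of ((hF h _).1 (hseq k h hq).2) (V_coe (e := e) hi)
              rw [has_uniq hx.1 hn (hx.2 _ _ _ (hfk h k) h1.1)]
              obtain ⟨j, rfl⟩ := even_iff_exists_two_mul.1 hk
              refine isTrans_vN h β _ _ ?_ (hbd (st (2 * j)).2 i h
                ⟨hi, (hF h _).1 (hseq _ h hq).2⟩)
              rw [E_vN_vN]
              exact hβ' j
            · obtain ⟨j, rfl⟩ := Nat.not_even_iff_odd.1 hk
              have h1 := hx.2 _ _ (Mdl.mk h (vN (bd (st (2 * j)).2 i))) (hfk h (2 * j + 1)) (by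
                rw [hodd _ (even_two_mul j)]
                exact (has_hN hs hi).2 rfl)
              rw [has_uniq hx.1 hn h1, E_vN_vN]
              exact hβ' j
        obtain ⟨n, v, hn, hv'⟩ := hc.2 (Mdl.mk h (vN β)) (E_vN_vN.2 hβ)
        have h2 := hkey n v hn
        have h3 : E h (Mdl.mk h (vN β)) (Mdl.mk h (vN β)) := by
          rcases hv' with hv' | hv'
          · exact isTrans_vN h β _ _ h2 hv'
          · rw [← hv'] at h2; exact h2
        rw [E_vN_vN] at h3
        exact lt_irrefl _ h3

end Pool.Agent.MPe811a4
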